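import Pool.Agent.Work.MP_1e1ce6_co.Cone

/-!
# MP_1e1ce6_co : nonvanishing for matching recursions
-/

namespace MP_1e1ce6_co

open Finset

variable {U : Type*} [DecidableEq U]

/-- the matching recursion for a family of functions indexed by vertex sets of the graph `Γ` -/
structure MatchRec (Γ : U → U → Prop) [DecidableRel Γ] (A : Finset U → ℂ → ℂ) : Prop where
  empty : ∀ w, A ∅ w = g w
  step : ∀ (S : Finset U) (v : U), v ∈ S → ∀ w,
    A S w = A (S.erase v) w + ∑ u ∈ (S.erase v).filter (fun u => Γ v u),
      A ((S.erase v).erase u) (w + 1)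

variable {Γ : U → U → Prop} [DecidableRel Γ] {A : Finset U → ℂ → ℂ}

/-- the second recursion -/
theorem MatchRec.shift (h : MatchRec Γ A) : ∀ (n : ℕ) (S : Finset U), S.card = n → ∀ w,
    A S w = w * A S (w + 1) + (1 / 2) * ∑ u ∈ S, (A S (w + 1) - A (S.erase u) (w + 1)) := by
  intro n
  induction n using Nat.strong_induction_on with
  | _ n ih =>
    intro S hS w
    rcases S.eq_empty_or_nonempty with hemp | ⟨v, hv⟩
    · subst hemp
      rw [h.empty, h.empty]
      simp only [Finset.sum_empty, mul_zero, add_zero]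
      exact g_rec w
    · have hcard : (S.erase v).card < n := by
        rw [Finset.card_erase_of_mem hv]
        have := Finset.card_pos.mpr ⟨v, hv⟩
        omega
      set T := S.erase v with hT
      set F := T.filter (fun u => Γ v u) with hF
      have hFT : ∀ u ∈ F, u ∈ T := fun u hu => (mem_filter.mp hu).1
      have hs1 := h.step S v hv w
      have hs2 := h.step S v hv (w + 1)
      rw [← hT, ← hF] at hs1 hs2
      have e1 := ih T.card hcard T rfl w
      have e2 : ∀ u ∈ F, A (T.erase u) (w + 1) = (w + 1) * A (T.erase u) (w + 1 + 1) +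
          (1 / 2) * ∑ t ∈ T.erase u, (A (T.erase u) (w + 1 + 1) -
            A ((T.erase u).erase t) (w + 1 + 1)) := by
        intro u hu
        refine ih (T.erase u).card ?_ _ rfl (w + 1)
        calc (T.erase u).card ≤ T.card := Finset.card_le_card (Finset.erase_subset _ _)
          _ < n := hcard
      -- expansion of the terms `A (S.erase t) (w+1)` for `t ∈ T`
      have e3 : ∀ t ∈ T, A (S.erase t) (w + 1) = A (T.erase t) (w + 1) +
          ∑ u ∈ F.erase t, A ((T.erase u).erase t) (w + 1 + 1) := by
        intro t ht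
        have htv : t ≠ v := (Finset.mem_erase.mp ht).1
        have hv' : v ∈ S.erase t := Finset.mem_erase.mpr ⟨htv.symm, hv⟩
        have := h.step (S.erase t) v hv' (w + 1)
        have e : (S.erase t).erase v = T.erase t := by
          rw [hT, Finset.erase_right_comm]
        rw [e] at this
        rw [this]
        congr 1
        have e' : (T.erase t).filter (fun u => Γ v u) = F.erase t := by
          rw [hF, Finset.filter_erase]
        rw [e']
        apply Finset.sum_congr rfl
        intro u _
        rw [Finset.erase_right_comm]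
      have hSsum : ∑ u ∈ S, (A S (w + 1) - A (S.erase u) (w + 1)) =
          (A S (w + 1) - A T (w + 1)) + ∑ t ∈ T, (A S (w + 1) - A (S.erase t) (w + 1)) := by
        rw [hT, Finset.add_sum_erase S (fun u => A S (w + 1) - A (S.erase u) (w + 1)) hv]
      have e4 : ∀ t ∈ T, A S (w + 1) - A (S.erase t) (w + 1) =
          (A T (w + 1) - A (T.erase t) (w + 1)) +
          (∑ u ∈ F, A (T.erase u) (w + 1 + 1) -
            ∑ u ∈ F.erase t, A ((T.erase u).erase t) (w + 1 + 1)) := by
        intro t ht
        rw [e3 t ht, hs2]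
        ring
      have e5 : ∑ t ∈ T, (∑ u ∈ F, A (T.erase u) (w + 1 + 1) -
            ∑ u ∈ F.erase t, A ((T.erase u).erase t) (w + 1 + 1)) =
          ∑ u ∈ F, A (T.erase u) (w + 1 + 1) +
          ∑ u ∈ F, ∑ t ∈ T.erase u, (A (T.erase u) (w + 1 + 1) -
            A ((T.erase u).erase t) (w + 1 + 1)) := by
        have s1 : ∀ t ∈ T, (∑ u ∈ F, A (T.erase u) (w + 1 + 1) -
            ∑ u ∈ F.erase t, A ((T.erase u).erase t) (w + 1 + 1)) =
            ∑ u ∈ F, (A (T.erase u) (w + 1 + 1) -
              if u = t then 0 else A ((T.erase u).erase t) (w + 1 + 1)) := by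
          intro t _
          rw [Finset.sum_sub_distrib]
          congr 1
          rw [← Finset.filter_ne', Finset.sum_filter]
          apply Finset.sum_congr rfl
          intro u _
          by_cases hut : u = t <;> simp [hut]
        rw [Finset.sum_congr rfl s1, Finset.sum_comm, ← Finset.sum_add_distrib]
        apply Finset.sum_congr rfl
        intro u hu
        rw [← Finset.add_sum_erase T _ (hFT u hu)]
        congr 1
        · simp
        · apply Finset.sum_congr rfl
          intro t ht
          have : u ≠ t := (Finset.mem_erase.mp ht).1.symm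
          rw [if_neg this]
      rw [hSsum, Finset.sum_congr rfl e4, Finset.sum_add_distrib, e5, hs2, hs1, e1,
        Finset.sum_congr rfl e2, Finset.sum_add_distrib, ← Finset.mul_sum, ← Finset.mul_sum]
      ring

lemma re_inv_nonneg {z : ℂ} (hz : 0 ≤ z.re) : 0 ≤ (z⁻¹).re := by
  rw [Complex.inv_re]
  exact div_nonneg hz (Complex.normSq_nonneg z)

lemma re_inv_le_one {z : ℂ} (hz : 1 ≤ z.re) : (z⁻¹).re ≤ 1 := by
  rw [Complex.inv_re]
  have h1 : z.re ≤ Complex.normSq z := by
    rw [Complex.normSq_apply]
    nlinarith [sq_nonneg z.im]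
  have h2 : 0 < Complex.normSq z := by linarith
  rw [div_le_one h2]
  exact h1

theorem MatchRec.main (h : MatchRec Γ A) : ∀ (n : ℕ) (S : Finset U), S.card = n →
    (∀ w : ℂ, 0 ≤ w.re → w ≠ 0 → A S w ≠ 0) ∧
    (∀ w : ℂ, 0 ≤ w.re → 0 ≤ (A S w / A S (w + 1)).re) ∧
    (∀ v ∈ S, ∀ w : ℂ, 0 ≤ w.re → 0 ≤ (A S w / A (S.erase v) (w + 1)).re) ∧
    (∀ v ∈ S, ∀ w : ℂ, 0 ≤ w.re → w ≠ 0 → 1 ≤ (A S w / A (S.erase v) w).re) := by
  intro n
  induction n using Nat.strong_induction_on with
  | _ n ih =>
    intro S hS
    have hne1 : ∀ w : ℂ, 0 ≤ w.re → 0 ≤ (w + 1).re ∧ w + 1 ≠ 0 := by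
      intro w hw
      constructor
      · simp; linarith
      · intro h0
        have := congrArg Complex.re h0
        simp at this
        linarith
    have ihS : ∀ v ∈ S, _ := fun v hv => ih (S.erase v).card (by
      rw [Finset.card_erase_of_mem hv]
      have := Finset.card_pos.mpr ⟨v, hv⟩
      omega) (S.erase v) rfl
    -- Q
    have hQ : ∀ v ∈ S, ∀ w : ℂ, 0 ≤ w.re → w ≠ 0 → 1 ≤ (A S w / A (S.erase v) w).re := by
      intro v hv w hw hw0
      obtain ⟨iN, iR, iP, iQ⟩ := ihS v hv
      have hN := iN w hw hw0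
      rw [h.step S v hv w, add_div, div_self hN, Finset.sum_div]
      simp only [Complex.add_re, Complex.one_re, Complex.re_sum]
      have : 0 ≤ ∑ u ∈ (S.erase v).filter (fun u => Γ v u),
          (A ((S.erase v).erase u) (w + 1) / A (S.erase v) w).re := by
        apply Finset.sum_nonneg
        intro u hu
        have hu' := (mem_filter.mp hu).1
        have := re_inv_nonneg (iP u hu' w hw)
        rwa [inv_div] at this
      linarith
    have hN : ∀ w : ℂ, 0 ≤ w.re → w ≠ 0 → A S w ≠ 0 := by
      intro w hw hw0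
      rcases S.eq_empty_or_nonempty with hemp | ⟨v, hv⟩
      · subst hemp
        rw [h.empty]
        exact g_ne_zero hw hw0
      · intro h0
        have := hQ v hv w hw hw0
        rw [h0, zero_div, Complex.zero_re] at this
        linarith
    refine ⟨hN, ?_, ?_, hQ⟩
    · -- R
      intro w hw
      obtain ⟨hw1, hw10⟩ := hne1 w hw
      have hne := hN (w + 1) hw1 hw10
      rw [h.shift S.card S rfl w, add_div, mul_div_assoc, div_self hne, mul_one,
        mul_div_assoc, Finset.sum_div]
      have e : (w + 1 / 2 * ∑ i ∈ S, (A S (w + 1) - A (S.erase i) (w + 1)) / A S (w + 1)).re =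
          w.re + 1 / 2 * ∑ i ∈ S, ((A S (w + 1) - A (S.erase i) (w + 1)) / A S (w + 1)).re := by
        rw [Complex.add_re]
        congr 1
        have : (1 / 2 : ℂ) = ((1 / 2 : ℝ) : ℂ) := by push_cast; rfl
        rw [this, Complex.re_ofReal_mul, Complex.re_sum]
      rw [e]
      have : 0 ≤ ∑ i ∈ S, ((A S (w + 1) - A (S.erase i) (w + 1)) / A S (w + 1)).re := by
        apply Finset.sum_nonneg
        intro u hu
        rw [sub_div, div_self hne, Complex.sub_re, Complex.one_re]
        have := re_inv_le_one (hQ u hu (w + 1) hw1 hw10)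
        rw [inv_div] at this
        linarith
      linarith
    · -- P
      intro v hv w hw
      obtain ⟨hw1, hw10⟩ := hne1 w hw
      obtain ⟨iN, iR, iP, iQ⟩ := ihS v hv
      rw [h.step S v hv w, add_div, Finset.sum_div, Complex.add_re, Complex.re_sum]
      apply add_nonneg (iR w hw)
      apply Finset.sum_nonneg
      intro u hu
      have hu' := (mem_filter.mp hu).1
      have := re_inv_nonneg (le_trans zero_le_one (iQ u hu' (w + 1) hw1 hw10))
      rwa [inv_div] at this

theorem MatchRec.ne_zero (h : MatchRec Γ A) (S : Finset U) {w : ℂ} (hw : 0 ≤ w.re)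
    (hw0 : w ≠ 0) : A S w ≠ 0 :=
  (h.main S.card S rfl).1 w hw hw0

end MP_1e1ce6_co
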