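import Mathlib

/-!
# MP_1e1ce6_co : merging two classes of an equivalence relation
-/

namespace MP_1e1ce6_co

variable {V : Type*}

/-- merging the classes of `u` and `v` removes one class -/
theorem card_quotient_merge [Finite V] (s s' : Setoid V) (u v : V) (huv : ¬ s' u v)
    (h : ∀ x y, s x y ↔ s' x y ∨ (s' x u ∧ s' v y) ∨ (s' x v ∧ s' u y)) :
    Nat.card (Quotient s) + 1 = Nat.card (Quotient s') := by
  classical
  have hle : ∀ x y, s' x y → s x y := fun x y hxy => (h x y).mpr (Or.inl hxy)
  have huv' : s u v := (h u v).mpr (Or.inr (Or.inl ⟨s'.refl u, s'.refl v⟩))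
  let f : {c : Quotient s' // c ≠ Quotient.mk s' v} → Quotient s :=
    fun c => Quotient.map id (fun x y hxy => hle x y hxy) c.1
  have hf : ∀ (x : V) (hx : Quotient.mk s' x ≠ Quotient.mk s' v),
      f ⟨Quotient.mk s' x, hx⟩ = Quotient.mk s x := fun x hx => rfl
  have hbij : Function.Bijective f := by
    constructor
    · rintro ⟨c, hc⟩ ⟨d, hd⟩ hcd
      induction c using Quotient.inductionOn with
      | h x =>
        induction d using Quotient.inductionOn with
        | h y =>
          rw [hf, hf] at hcd
          have hxy : s x y := Quotient.exact hcd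
          have hxv : ¬ s' x v := fun hh => hc (Quotient.sound hh)
          have hyv : ¬ s' y v := fun hh => hd (Quotient.sound hh)
          apply Subtype.ext
          apply Quotient.sound
          rcases (h x y).mp hxy with h1 | ⟨_, h2⟩ | ⟨h1, _⟩
          · exact h1
          · exact absurd (s'.symm h2) hyv
          · exact absurd h1 hxv
    · intro c
      induction c using Quotient.inductionOn with
      | h x =>
        by_cases hx : s' x v
        · refine ⟨⟨Quotient.mk s' u, fun hh => huv (Quotient.exact hh)⟩, ?_⟩
          rw [hf]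
          apply Quotient.sound
          show s u x
          exact s.trans huv' (hle _ _ (s'.symm hx))
        · exact ⟨⟨Quotient.mk s' x, fun hh => hx (Quotient.exact hh)⟩, rfl⟩
  rw [← Nat.card_eq_of_bijective f hbij]
  have h1 : Nat.card {c : Quotient s' // c ≠ Quotient.mk s' v} =
      Nat.card (Quotient s') - 1 := by
    have : Fintype (Quotient s') := Fintype.ofFinite _
    rw [Nat.card_eq_fintype_card, Nat.card_eq_fintype_card, Fintype.card_subtype_compl,
      Fintype.card_subtype_eq]
  have h2 : 0 < Nat.card (Quotient s') := Nat.card_pos_iff.mpr ⟨⟨Quotient.mk s' v⟩, inferInstance⟩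
  omega

end MP_1e1ce6_co
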