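import Pool.Agent.Work.MP_1e1ce6_co.Link
import Pool.Agent.Work.MP_1e1ce6_co.Matching
import Pool.Agent.Work.MP_1e1ce6_co.Merge

/-!
# MP_1e1ce6_co : graphs without an independent set of size three
-/

namespace MP_1e1ce6_co

open Finset

variable {V : Type*}

/-- merge the classes of `u` and `v` -/
def mergeS (s : Setoid V) (u v : V) : Setoid V where
  r x y := s x y ∨ (s x u ∧ s v y) ∨ (s x v ∧ s u y)
  iseqv := by
    refine ⟨fun x => Or.inl (s.refl x), ?_, ?_⟩
    · rintro x y (h | ⟨h1, h2⟩ | ⟨h1, h2⟩)
      · exact Or.inl (s.symm h)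
      · exact Or.inr (Or.inr ⟨s.symm h2, s.symm h1⟩)
      · exact Or.inr (Or.inl ⟨s.symm h2, s.symm h1⟩)
    · rintro x y z (h | ⟨h1, h2⟩ | ⟨h1, h2⟩) (k | ⟨k1, k2⟩ | ⟨k1, k2⟩)
      · exact Or.inl (s.trans h k)
      · exact Or.inr (Or.inl ⟨s.trans h k1, k2⟩)
      · exact Or.inr (Or.inr ⟨s.trans h k1, k2⟩)
      · exact Or.inr (Or.inl ⟨h1, s.trans h2 k⟩)
      · exact Or.inr (Or.inl ⟨h1, k2⟩)
      · exact Or.inl (s.trans h1 k2)
      · exact Or.inr (Or.inr ⟨h1, s.trans h2 k⟩)
      · exact Or.inl (s.trans h1 k2)
      · exact Or.inr (Or.inr ⟨h1, k2⟩)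

lemma mergeS_iff (s : Setoid V) (u v x y : V) :
    mergeS s u v x y ↔ s x y ∨ (s x u ∧ s v y) ∨ (s x v ∧ s u y) := Iff.rfl

lemma card_mergeS [Finite V] (s : Setoid V) (u v : V) (h : ¬ s u v) :
    Nat.card (Quotient (mergeS s u v)) + 1 = Nat.card (Quotient s) :=
  card_quotient_merge _ _ u v h (fun _ _ => Iff.rfl)

lemma card_quotient_le [Fintype V] (s : Setoid V) : Nat.card (Quotient s) ≤ Fintype.card V := by
  rw [← Nat.card_eq_fintype_card]
  exact Nat.card_le_card_of_surjective _ (Quotient.mk_surjective)

/-- break the class of `v` into singletons -/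
def breakS (s : Setoid V) (v : V) : Setoid V where
  r x y := x = y ∨ (s x y ∧ ¬ s x v)
  iseqv := by
    refine ⟨fun x => Or.inl rfl, ?_, ?_⟩
    · rintro x y (h | ⟨h1, h2⟩)
      · exact Or.inl h.symm
      · exact Or.inr ⟨s.symm h1, fun h => h2 (s.trans h1 h)⟩
    · rintro x y z (h | ⟨h1, h2⟩) (k | ⟨k1, k2⟩)
      · exact Or.inl (h.trans k)
      · subst h; exact Or.inr ⟨k1, k2⟩
      · subst k; exact Or.inr ⟨h1, h2⟩
      · exact Or.inr ⟨s.trans h1 k1, h2⟩

lemma breakS_iff (s : Setoid V) (v x y : V) :
    breakS s v x y ↔ x = y ∨ (s x y ∧ ¬ s x v) := Iff.rfl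

/-- independent partitions that are trivial outside `S` -/
noncomputable def fam [Fintype V] (G : SimpleGraph V) (S : Finset V) : Finset (Setoid V) := by
  classical
  exact (Set.toFinite {s : Setoid V | (∀ x y, s x y → ¬ G.Adj x y) ∧
    ∀ x, x ∉ S → ∀ y, s x y → x = y}).toFinset

lemma mem_fam [Fintype V] {G : SimpleGraph V} {S : Finset V} {s : Setoid V} :
    s ∈ fam G S ↔ (∀ x y, s x y → ¬ G.Adj x y) ∧ ∀ x, x ∉ S → ∀ y, s x y → x = y := by
  classical
  unfold fam
  rw [Set.Finite.mem_toFinset]
  rfl

/-- the family of functions -/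
noncomputable def famA [Fintype V] (G : SimpleGraph V) (S : Finset V) (w : ℂ) : ℂ :=
  ∑ s ∈ fam G S, g (w + ((Fintype.card V - Nat.card (Quotient s) : ℕ) : ℂ))

lemma fam_empty [Fintype V] (G : SimpleGraph V) : fam G ∅ = {⊥} := by
  ext s
  rw [mem_fam, Finset.mem_singleton]
  constructor
  · rintro ⟨_, h⟩
    ext x y
    constructor
    · intro hxy
      exact h x (by simp) y hxy
    · intro hxy
      have : x = y := hxy
      rw [this]
  · rintro rfl
    refine ⟨?_, fun x _ y h => h⟩
    intro x y hxy hadj
    have : x = y := hxy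
    subst this
    exact G.loopless.irrefl x hadj

lemma card_quotient_bot [Fintype V] : Nat.card (Quotient (⊥ : Setoid V)) = Fintype.card V := by
  rw [← Nat.card_eq_fintype_card]
  apply Nat.card_congr
  symm
  refine Equiv.ofBijective (Quotient.mk ⊥) ⟨?_, Quotient.mk_surjective⟩
  intro u v h
  exact Quotient.exact h

/-- no three pairwise distinct, pairwise non-adjacent vertices -/
def NoIndepTriple (G : SimpleGraph V) : Prop :=
  ∀ x y z : V, x ≠ y → y ≠ z → x ≠ z → G.Adj x y ∨ G.Adj y z ∨ G.Adj x z

theorem famA_matchRec [Fintype V] [DecidableEq V] (G : SimpleGraph V) [DecidableRel G.Adj]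
    (hα : NoIndepTriple G) :
    MatchRec (fun u v : V => u ≠ v ∧ ¬ G.Adj u v) (famA G) := by
  classical
  constructor
  · intro w
    unfold famA
    rw [fam_empty, Finset.sum_singleton, card_quotient_bot]
    simp
  · intro S v hv w
    -- classes have at most two elements
    have hcls : ∀ s ∈ fam G S, ∀ u x, u ≠ v → s v u → s v x → x = v ∨ x = u := by
      intro s hs u x huv hsu hsx
      rw [mem_fam] at hs
      by_contra hcon
      push Not at hcon
      rcases hα x u v hcon.2 huv hcon.1 with h | h | h
      · exact hs.1 x u (s.trans (s.symm hsx) hsu) h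
      · exact hs.1 u v (s.symm hsu) h
      · exact hs.1 x v (s.symm hsx) h
    -- decomposition
    have hsplit : fam G S = fam G (S.erase v) ∪
        ((S.erase v).filter (fun u => v ≠ u ∧ ¬ G.Adj v u)).biUnion
          (fun u => (fam G S).filter (fun s => s v u)) := by
      ext s
      simp only [mem_union, mem_biUnion, mem_filter]
      constructor
      · intro hs
        by_cases htriv : ∀ y, s v y → v = y
        · left
          rw [mem_fam] at hs ⊢
          refine ⟨hs.1, ?_⟩
          intro x hx y hxy
          by_cases hxv : x = v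
          · subst hxv; exact htriv y hxy
          · exact hs.2 x (fun h => hx (Finset.mem_erase.mpr ⟨hxv, h⟩)) y hxy
        · right
          push Not at htriv
          obtain ⟨u, hu1, hu2⟩ := htriv
          have hs' := hs
          rw [mem_fam] at hs'
          refine ⟨u, ⟨Finset.mem_erase.mpr ⟨hu2.symm, ?_⟩, hu2, hs'.1 v u hu1⟩, hs, hu1⟩
          by_contra hcon
          exact hu2 (hs'.2 u hcon v (s.symm hu1)).symm
      · rintro (hs | ⟨u, _, hs, _⟩)
        · rw [mem_fam] at hs ⊢
          exact ⟨hs.1, fun x hx y hxy => hs.2 x (fun h => hx (Finset.mem_of_mem_erase h)) y hxy⟩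
        · exact hs
    have hdisj : Disjoint (fam G (S.erase v))
        (((S.erase v).filter (fun u => v ≠ u ∧ ¬ G.Adj v u)).biUnion
          (fun u => (fam G S).filter (fun s => s v u))) := by
      rw [Finset.disjoint_left]
      intro s hs hs'
      simp only [mem_biUnion, mem_filter] at hs'
      obtain ⟨u, ⟨_, hvu, _⟩, _, hsu⟩ := hs'
      rw [mem_fam] at hs
      exact hvu (hs.2 v (by simp) u hsu)
    have hpair : Set.PairwiseDisjoint
        (((S.erase v).filter (fun u => v ≠ u ∧ ¬ G.Adj v u) : Finset V) : Set V)
          (fun u => (fam G S).filter (fun s => s v u)) := by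
      intro u hu u' hu' hne
      simp only [Finset.coe_filter, Set.mem_ofPred_eq] at hu hu'
      rw [Function.onFun, Finset.disjoint_left]
      intro s hs hs'
      simp only [mem_filter] at hs hs'
      rcases hcls s hs.1 u u' hu.2.1.symm hs.2 hs'.2 with h | h
      · exact hu'.2.1 h.symm
      · exact hne h.symm
    have hterm : ∀ u ∈ (S.erase v).filter (fun u => v ≠ u ∧ ¬ G.Adj v u),
        ∑ s ∈ (fam G S).filter (fun s => s v u),
          g (w + ((Fintype.card V - Nat.card (Quotient s) : ℕ) : ℂ)) =
        famA G ((S.erase v).erase u) (w + 1) := by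
      intro u hu
      simp only [mem_filter, mem_erase] at hu
      obtain ⟨⟨huv, huS⟩, _, hadj⟩ := hu
      unfold famA
      -- membership in the target family means that `u` and `v` are singletons
      have hsing : ∀ s' ∈ fam G ((S.erase v).erase u), (∀ y, s' u y → u = y) ∧
          (∀ y, s' v y → v = y) := by
        intro s' hs'
        rw [mem_fam] at hs'
        exact ⟨fun y h => hs'.2 u (by simp) y h, fun y h => hs'.2 v (by simp) y h⟩
      symm
      refine Finset.sum_bij' (fun s' _ => mergeS s' u v) (fun s _ => breakS s v) ?_ ?_ ?_ ?_ ?_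
      · intro s' hs'
        obtain ⟨h1, h2⟩ := hsing s' hs'
        rw [mem_filter, mem_fam]
        rw [mem_fam] at hs'
        refine ⟨⟨?_, ?_⟩, ?_⟩
        · rintro x y (h | ⟨h3, h4⟩ | ⟨h3, h4⟩)
          · exact hs'.1 x y h
          · have e1 := h1 x (s'.symm h3)
            have e2 := h2 y h4
            subst e1; subst e2
            exact fun h => hadj h.symm
          · have e1 := h2 x (s'.symm h3)
            have e2 := h1 y h4
            subst e1; subst e2
            exact hadj
        · intro x hx y hxy
          have hxu : x ≠ u := fun h => hx (h ▸ huS)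
          have hxv : x ≠ v := fun h => hx (h ▸ hv)
          rcases hxy with h | ⟨h3, h4⟩ | ⟨h3, h4⟩
          · exact hs'.2 x (fun h => hx (Finset.mem_of_mem_erase (Finset.mem_of_mem_erase h))) y h
          · exact absurd (h1 x (s'.symm h3)).symm hxu
          · exact absurd (h2 x (s'.symm h3)).symm hxv
        · exact Or.inr (Or.inr ⟨s'.refl v, s'.refl u⟩)
      · intro s hs
        rw [mem_filter] at hs
        rw [mem_fam]
        have hs1 := hs.1
        rw [mem_fam] at hs1
        refine ⟨?_, ?_⟩
        · rintro x y (h | ⟨h, _⟩)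
          · subst h; exact fun h => G.loopless.irrefl x h
          · exact hs1.1 x y h
        · intro x hx y hxy
          rcases hxy with h | ⟨h3, h4⟩
          · exact h
          · by_cases hxS : x ∈ S
            · by_cases hxv : x = v
              · subst hxv; exact absurd (s.refl x) h4
              · by_cases hxu : x = u
                · subst hxu; exact absurd (s.symm hs.2) h4
                · exact absurd (Finset.mem_erase.mpr ⟨hxu, Finset.mem_erase.mpr ⟨hxv, hxS⟩⟩) hx
            · exact hs1.2 x hxS y h3
      · intro s' hs'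
        obtain ⟨h1, h2⟩ := hsing s' hs'
        ext x y
        constructor
        · rintro (h | ⟨h | ⟨h3, h4⟩ | ⟨h3, h4⟩, h5⟩)
          · rw [h]
          · exact h
          · exact absurd (Or.inr (Or.inl ⟨h3, s'.refl v⟩)) h5
          · exact absurd (Or.inl h3) h5
        · intro h
          by_cases hx : mergeS s' u v x v
          · left
            rcases hx with h3 | ⟨h3, _⟩ | ⟨h3, _⟩
            · have e := h2 x (s'.symm h3)
              subst e
              exact h2 y h
            · have e := h1 x (s'.symm h3)
              subst e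
              exact h1 y h
            · have e := h2 x (s'.symm h3)
              subst e
              exact h2 y h
          · exact Or.inr ⟨Or.inl h, hx⟩
      · intro s hs
        rw [mem_filter] at hs
        ext x y
        constructor
        · rintro ((h | ⟨h, _⟩) | ⟨h3, h4⟩ | ⟨h3, h4⟩)
          · rw [h]
          · exact h
          · have e3 : s x u := by
              rcases h3 with h | ⟨h, _⟩
              · rw [h]
              · exact h
            have e4 : s v y := by
              rcases h4 with h | ⟨h, _⟩
              · rw [h]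
              · exact h
            exact s.trans (s.trans e3 (s.symm hs.2)) e4
          · have e3 : s x v := by
              rcases h3 with h | ⟨h, _⟩
              · rw [h]
              · exact h
            have e4 : s u y := by
              rcases h4 with h | ⟨h, _⟩
              · rw [h]
              · exact h
            exact s.trans (s.trans e3 hs.2) e4
        · intro h
          by_cases hx : s x v
          · have hx1 := hcls s hs.1 u x huv hs.2 (s.symm hx)
            have hy1 := hcls s hs.1 u y huv hs.2 (s.trans (s.symm hx) h)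
            rcases hx1 with hx1 | hx1 <;> rcases hy1 with hy1 | hy1 <;> subst hx1 <;> subst hy1
            · exact Or.inl (Or.inl rfl)
            · exact Or.inr (Or.inr ⟨Or.inl rfl, Or.inl rfl⟩)
            · exact Or.inr (Or.inl ⟨Or.inl rfl, Or.inl rfl⟩)
            · exact Or.inl (Or.inl rfl)
          · exact Or.inl (Or.inr ⟨h, hx⟩)
      · intro s' hs'
        obtain ⟨h1, h2⟩ := hsing s' hs'
        have hnuv : ¬ s' u v := fun h => huv (h1 v h)
        have hc := card_mergeS s' u v hnuv
        have hle := card_quotient_le s'
        have hle' := card_quotient_le (mergeS s' u v)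
        have : Fintype.card V - Nat.card (Quotient (mergeS s' u v)) =
            (Fintype.card V - Nat.card (Quotient s')) + 1 := by omega
        rw [this]
        push_cast
        ring_nf
    unfold famA at hterm ⊢
    rw [hsplit, Finset.sum_union hdisj, Finset.sum_biUnion hpair]
    congr 1
    apply Finset.sum_congr rfl
    intro u hu
    exact hterm u hu

/-- link with the functional `L` -/
theorem famA_univ [Fintype V] (G : SimpleGraph V) (w : ℂ) :
    famA G univ w = L w (sigmaPoly G).reverse := by
  classical
  rw [reverse_sigmaPoly, L_sum]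
  unfold famA
  have h2 : ∀ s ∈ fam G univ, Nat.card (Quotient s) ∈ range (Fintype.card V + 1) := by
    intro s _
    rw [Finset.mem_range, Nat.lt_succ_iff]
    exact card_quotient_le s
  rw [← Finset.sum_fiberwise_of_maps_to h2]
  apply Finset.sum_congr rfl
  intro k _
  rw [L_monomial, Finset.sum_congr rfl (g := fun _ => g (w + ((Fintype.card V - k : ℕ) : ℂ)))]
  · rw [Finset.sum_const, nsmul_eq_mul]
    congr 1
    unfold sigmaCoeff
    rw [← Fintype.card_coe, ← Nat.card_eq_fintype_card]
    have : Nat.card {x // x ∈ (fam G univ).filter (fun s => Nat.card (Quotient s) = k)} =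
        Nat.card {s : Setoid V // (∀ u v, s u v → ¬ G.Adj u v) ∧ Nat.card (Quotient s) = k} := by
      apply Nat.card_congr
      apply Equiv.subtypeEquivRight
      intro s
      rw [mem_filter, mem_fam]
      simp
    rw [this]
    push_cast
    rfl
  · intro s hs
    rw [(mem_filter.mp hs).2]

end MP_1e1ce6_co
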