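import Mathlib

/-!
# MP_1e1ce6_co : chromatic polynomial in the basis of falling factorials
-/

namespace MP_1e1ce6_co

open Finset

variable {V : Type*}

/-- partitions of the vertex set (given as equivalence relations) into independent sets -/
def IndepPartition (G : SimpleGraph V) : Type _ :=
  {s : Setoid V // ∀ u v, s u v → ¬ G.Adj u v}

/-- The number of partitions of the vertex set of `G` into exactly `k` nonempty independent
sets. -/
noncomputable def sigmaCoeff (G : SimpleGraph V) (k : ℕ) : ℕ :=
  Nat.card {s : Setoid V // (∀ u v, s u v → ¬ G.Adj u v) ∧ Nat.card (Quotient s) = k}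

instance [Finite V] : Finite (Setoid V) := by
  apply Finite.of_injective (fun (s : Setoid V) (u v : V) => s u v)
  intro s t h
  ext u v
  exact iff_of_eq (congrFun (congrFun h u) v)

instance [Finite V] (G : SimpleGraph V) : Finite (IndepPartition G) := by
  unfold IndepPartition
  infer_instance

/-- glueing -/
def toColoring {G : SimpleGraph V} {α : Type*} (x : Σ s : IndepPartition G, (Quotient s.1 ↪ α)) :
    G.Coloring α :=
  SimpleGraph.Coloring.mk (fun v => x.2 (Quotient.mk x.1.1 v)) (by
    intro u v huv h
    have h1 := x.2.injective h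
    have h2 : x.1.1 u v := Quotient.exact h1
    exact x.1.2 u v h2 huv)

lemma toColoring_bijective (G : SimpleGraph V) (α : Type*) :
    Function.Bijective (toColoring (G := G) (α := α)) := by
  constructor
  · rintro ⟨⟨s, hs⟩, g⟩ ⟨⟨t, ht⟩, g'⟩ h
    have h1 : ∀ v, g (Quotient.mk s v) = g' (Quotient.mk t v) := fun v => by
      have := congrArg (fun (C : G.Coloring α) => C v) h
      exact this
    have hst : s = t := by
      ext u v
      constructor
      · intro huv
        have h2 : g (Quotient.mk s u) = g (Quotient.mk s v) := congrArg g (Quotient.sound huv)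
        rw [h1, h1] at h2
        exact Quotient.exact (g'.injective h2)
      · intro huv
        have h2 : g' (Quotient.mk t u) = g' (Quotient.mk t v) := congrArg g' (Quotient.sound huv)
        rw [← h1, ← h1] at h2
        exact Quotient.exact (g.injective h2)
    subst hst
    have hg : g = g' := by
      ext x
      induction x using Quotient.inductionOn with
      | h v => exact h1 v
    subst hg
    rfl
  · intro C
    refine ⟨⟨⟨Setoid.ker C, ?_⟩, ⟨Quotient.lift C (fun u v h => h), ?_⟩⟩, ?_⟩
    · intro u v huv hadj
      exact C.valid hadj huv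
    · intro x y
      induction x using Quotient.inductionOn with
      | h u =>
        induction y using Quotient.inductionOn with
        | h v =>
          intro h
          exact Quotient.sound h
    · ext v
      rfl

theorem card_coloring [Fintype V] (G : SimpleGraph V) (q : ℕ) :
    Nat.card (G.Coloring (Fin q)) =
      ∑ k ∈ range (Fintype.card V + 1), sigmaCoeff G k * q.descFactorial k := by
  classical
  have : Fintype (IndepPartition G) := Fintype.ofFinite _
  rw [← Nat.card_eq_of_bijective _ (toColoring_bijective G (Fin q)), Nat.card_sigma]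
  have h1 : ∀ s : IndepPartition G, Nat.card (Quotient s.1 ↪ Fin q) =
      q.descFactorial (Nat.card (Quotient s.1)) := by
    intro s
    have : Fintype (Quotient s.1) := Fintype.ofFinite _
    rw [Nat.card_eq_fintype_card, Fintype.card_embedding_eq, Fintype.card_fin,
      Nat.card_eq_fintype_card]
  rw [Finset.sum_congr rfl (fun s _ => h1 s)]
  have h2 : ∀ s ∈ (univ : Finset (IndepPartition G)),
      Nat.card (Quotient s.1) ∈ range (Fintype.card V + 1) := by
    intro s _
    rw [Finset.mem_range, Nat.lt_succ_iff, ← Nat.card_eq_fintype_card]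
    exact Nat.card_le_card_of_surjective _ (Quotient.mk_surjective)
  rw [← Finset.sum_fiberwise_of_maps_to h2]
  apply Finset.sum_congr rfl
  intro k _
  rw [Finset.sum_congr rfl (g := fun _ => q.descFactorial k)]
  · rw [Finset.sum_const, smul_eq_mul]
    congr 1
    unfold sigmaCoeff
    rw [← Fintype.card_coe, ← Nat.card_eq_fintype_card]
    apply Nat.card_congr
    refine ⟨fun x => ⟨x.1.1, x.1.2, (mem_filter.mp x.2).2⟩,
      fun y => ⟨⟨y.1, y.2.1⟩, mem_filter.mpr ⟨mem_univ _, y.2.2⟩⟩, ?_, ?_⟩
    · intro x
      rfl
    · intro y
      rfl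
  · intro s hs
    rw [(mem_filter.mp hs).2]

/-- The chromatic polynomial of `G`, written in the basis of falling factorials. -/
noncomputable def chromPoly [Fintype V] (G : SimpleGraph V) : Polynomial ℂ :=
  ∑ k ∈ range (Fintype.card V + 1), (sigmaCoeff G k : Polynomial ℂ) * descPochhammer ℂ k

theorem chromPoly_eval [Fintype V] (G : SimpleGraph V) (q : ℕ) :
    (chromPoly G).eval (q : ℂ) = Nat.card (G.Coloring (Fin q)) := by
  rw [card_coloring, chromPoly, Polynomial.eval_finsetSum]
  push_cast
  apply Finset.sum_congr rfl
  intro k _
  rw [Polynomial.eval_mul, Polynomial.eval_natCast, descPochhammer_eval_eq_descFactorial]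

/-- a polynomial with the right values at the positive integers is the chromatic polynomial -/
theorem eq_chromPoly [Fintype V] {G : SimpleGraph V} {p : Polynomial ℂ}
    (hp : ∀ q : ℕ, 0 < q → p.eval (q : ℂ) = Nat.card (G.Coloring (Fin q))) :
    p = chromPoly G := by
  apply Polynomial.eq_of_infinite_eval_eq
  apply Set.Infinite.mono (s := Set.range (fun q : ℕ => ((q + 1 : ℕ) : ℂ)))
  · rintro _ ⟨q, rfl⟩
    simp only [Set.mem_ofPred_eq]
    rw [hp (q + 1) (Nat.succ_pos q), chromPoly_eval]
  · apply Set.infinite_range_of_injective
    intro a b h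
    have := Nat.cast_injective (R := ℂ) h
    omega

end MP_1e1ce6_co
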