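import Pool.Agent.Work.MP_1e1ce6_co.AlphaTwo

/-!
# MP_1e1ce6_co : graphs whose complement is a comparability graph
-/

namespace MP_1e1ce6_co

open Finset

variable {V : Type*}

/-- chain partitions `s` of the strict order `lt` such that `v` is a top of its class if
`inl v ∉ S` and `u` is a bottom of its class if `inr u ∉ S` -/
noncomputable def chFam [Fintype V] (lt : V → V → Prop) (S : Finset (V ⊕ V)) :
    Finset (Setoid V) := by
  classical
  exact (Set.toFinite {s : Setoid V | (∀ x y, s x y → x = y ∨ lt x y ∨ lt y x) ∧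
    (∀ x, Sum.inl x ∉ S → ∀ y, s x y → ¬ lt x y) ∧
    (∀ x, Sum.inr x ∉ S → ∀ y, s x y → ¬ lt y x)}).toFinset

lemma mem_chFam [Fintype V] {lt : V → V → Prop} {S : Finset (V ⊕ V)} {s : Setoid V} :
    s ∈ chFam lt S ↔ (∀ x y, s x y → x = y ∨ lt x y ∨ lt y x) ∧
    (∀ x, Sum.inl x ∉ S → ∀ y, s x y → ¬ lt x y) ∧
    (∀ x, Sum.inr x ∉ S → ∀ y, s x y → ¬ lt y x) := by
  classical
  unfold chFam
  rw [Set.Finite.mem_toFinset]
  rfl

/-- the family of functions -/
noncomputable def chA [Fintype V] (lt : V → V → Prop) (S : Finset (V ⊕ V)) (w : ℂ) : ℂ :=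
  ∑ s ∈ chFam lt S, g (w + ((Fintype.card V - Nat.card (Quotient s) : ℕ) : ℂ))

/-- cut the class of `v` just above `v` -/
def cutS (lt : V → V → Prop) (s : Setoid V) (v : V) : Setoid V where
  r x y := s x y ∧ (s x v → (lt v x ↔ lt v y))
  iseqv := by
    refine ⟨fun x => ⟨s.refl x, fun _ => Iff.rfl⟩, ?_, ?_⟩
    · rintro x y ⟨h1, h2⟩
      exact ⟨s.symm h1, fun h => (h2 (s.trans h1 h)).symm⟩
    · rintro x y z ⟨h1, h2⟩ ⟨k1, k2⟩
      exact ⟨s.trans h1 k1, fun h => (h2 h).trans (k2 (s.trans (s.symm h1) h))⟩

lemma cutS_iff (lt : V → V → Prop) (s : Setoid V) (v x y : V) :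
    cutS lt s v x y ↔ s x y ∧ (s x v → (lt v x ↔ lt v y)) := Iff.rfl

/-- the bipartite graph -/
def chG (lt : V → V → Prop) : V ⊕ V → V ⊕ V → Prop
  | Sum.inl v, Sum.inr u => lt v u
  | Sum.inr u, Sum.inl v => lt v u
  | _, _ => False

lemma chFam_empty [Fintype V] (lt : V → V → Prop) (hirr : ∀ x, ¬ lt x x) :
    chFam lt ∅ = {⊥} := by
  ext s
  rw [mem_chFam, Finset.mem_singleton]
  constructor
  · rintro ⟨h0, h1, h2⟩
    ext x y
    constructor
    · intro hxy
      rcases h0 x y hxy with h | h | h
      · exact h
      · exact absurd h (h1 x (by simp) y hxy)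
      · exact absurd h (h2 x (by simp) y hxy)
    · intro hxy
      have : x = y := hxy
      rw [this]
  · rintro rfl
    refine ⟨fun x y h => Or.inl h, ?_, ?_⟩
    · intro x _ y hxy
      have : x = y := hxy
      subst this
      exact hirr x
    · intro x _ y hxy
      have : x = y := hxy
      subst this
      exact hirr x

theorem chA_step_inl [Fintype V] [DecidableEq V] (lt : V → V → Prop) [DecidableRel lt]
    (hirr : ∀ x, ¬ lt x x) (htrans : ∀ x y z, lt x y → lt y z → lt x z)
    (S : Finset (V ⊕ V)) (v : V) (hv : Sum.inl v ∈ S) (w : ℂ) :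
    chA lt S w = chA lt (S.erase (Sum.inl v)) w +
      ∑ u ∈ (univ : Finset V).filter (fun u => lt v u ∧ Sum.inr u ∈ S),
        chA lt ((S.erase (Sum.inl v)).erase (Sum.inr u)) (w + 1) := by
  classical
  have hasymm : ∀ x y, lt x y → ¬ lt y x := fun x y h h' => hirr x (htrans x y x h h')
  -- `u` is the successor of `v`
  set succ : Setoid V → V → Prop := fun s u => s v u ∧ lt v u ∧ ∀ x, s v x → lt v x → ¬ lt x u
    with hsucc
  have hsplit : chFam lt S = chFam lt (S.erase (Sum.inl v)) ∪
      ((univ : Finset V).filter (fun u => lt v u ∧ Sum.inr u ∈ S)).biUnion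
        (fun u => (chFam lt S).filter (fun s => succ s u)) := by
    ext s
    simp only [mem_union, mem_biUnion, mem_filter, mem_univ, true_and]
    constructor
    · intro hs
      by_cases htop : ∀ y, s v y → ¬ lt v y
      · left
        rw [mem_chFam] at hs ⊢
        refine ⟨hs.1, ?_, ?_⟩
        · intro x hx y hxy
          by_cases hxv : x = v
          · subst hxv; exact htop y hxy
          · exact hs.2.1 x (fun h => hx (Finset.mem_erase.mpr ⟨fun h' => hxv (Sum.inl.inj h'), h⟩))
              y hxy
        · intro x hx y hxy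
          exact hs.2.2 x (fun h => hx (Finset.mem_erase.mpr ⟨by simp, h⟩)) y hxy
      · right
        push Not at htop
        -- find a minimal element above `v` in the class
        have hwf : WellFounded lt := by
          have : IsTrans V lt := ⟨htrans⟩
          have : Std.Irrefl lt := ⟨hirr⟩
          exact Finite.wellFounded_of_trans_of_irrefl lt
        obtain ⟨u, hu, hmin⟩ := hwf.has_min {y | s v y ∧ lt v y} (by
          obtain ⟨y, h1, h2⟩ := htop
          exact ⟨y, h1, h2⟩)
        have hu1 : s v u := hu.1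
        have hu2 : lt v u := hu.2
        refine ⟨u, ⟨hu2, ?_⟩, hs, hu1, hu2, fun x hx1 hx2 => hmin x ⟨hx1, hx2⟩⟩
        by_contra hcon
        rw [mem_chFam] at hs
        exact hs.2.2 u hcon v (s.symm hu1) hu2
    · rintro (hs | ⟨u, _, hs, _⟩)
      · rw [mem_chFam] at hs ⊢
        exact ⟨hs.1, fun x hx y hxy => hs.2.1 x (fun h => hx (Finset.mem_of_mem_erase h)) y hxy,
          fun x hx y hxy => hs.2.2 x (fun h => hx (Finset.mem_of_mem_erase h)) y hxy⟩
      · exact hs
  have hdisj : Disjoint (chFam lt (S.erase (Sum.inl v)))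
      (((univ : Finset V).filter (fun u => lt v u ∧ Sum.inr u ∈ S)).biUnion
        (fun u => (chFam lt S).filter (fun s => succ s u))) := by
    rw [Finset.disjoint_left]
    intro s hs hs'
    simp only [mem_biUnion, mem_filter] at hs'
    obtain ⟨u, _, _, hsu⟩ := hs'
    rw [mem_chFam] at hs
    exact hs.2.1 v (by simp) u hsu.1 hsu.2.1
  have hpair : Set.PairwiseDisjoint
      (((univ : Finset V).filter (fun u => lt v u ∧ Sum.inr u ∈ S) : Finset V) : Set V)
        (fun u => (chFam lt S).filter (fun s => succ s u)) := by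
    intro u _ u' _ hne
    rw [Function.onFun, Finset.disjoint_left]
    intro s hs hs'
    simp only [mem_filter] at hs hs'
    have h1 := hs.2
    have h2 := hs'.2
    have h0 := hs.1
    rw [mem_chFam] at h0
    rcases h0.1 u u' (s.trans (s.symm h1.1) h2.1) with h | h | h
    · exact hne h
    · exact h2.2.2 u h1.1 h1.2.1 h
    · exact h1.2.2 u' h2.1 h2.2.1 h
  have hterm : ∀ u ∈ (univ : Finset V).filter (fun u => lt v u ∧ Sum.inr u ∈ S),
      ∑ s ∈ (chFam lt S).filter (fun s => succ s u),
        g (w + ((Fintype.card V - Nat.card (Quotient s) : ℕ) : ℂ)) =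
      chA lt ((S.erase (Sum.inl v)).erase (Sum.inr u)) (w + 1) := by
    intro u hu
    simp only [mem_filter, mem_univ, true_and] at hu
    obtain ⟨hvu, huS⟩ := hu
    unfold chA
    have hne : u ≠ v := fun h => hirr v (h ▸ hvu)
    -- properties of the members of the target family
    have hsing : ∀ s' ∈ chFam lt ((S.erase (Sum.inl v)).erase (Sum.inr u)),
        (∀ y, s' v y → y = v ∨ lt y v) ∧ (∀ y, s' u y → y = u ∨ lt u y) ∧ ¬ s' u v := by
      intro s' hs'
      rw [mem_chFam] at hs'
      have ht : ∀ y, s' v y → ¬ lt v y := hs'.2.1 v (by simp)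
      have hb : ∀ y, s' u y → ¬ lt y u := hs'.2.2 u (by simp)
      refine ⟨?_, ?_, ?_⟩
      · intro y hy
        rcases hs'.1 v y hy with h | h | h
        · exact Or.inl h.symm
        · exact absurd h (ht y hy)
        · exact Or.inr h
      · intro y hy
        rcases hs'.1 u y hy with h | h | h
        · exact Or.inl h.symm
        · exact Or.inr h
        · exact absurd h (hb y hy)
      · intro h
        exact hb v h hvu
    symm
    refine Finset.sum_bij' (fun s' _ => mergeS s' u v) (fun s _ => cutS lt s v) ?_ ?_ ?_ ?_ ?_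
    · intro s' hs'
      obtain ⟨h1, h2, h3⟩ := hsing s' hs'
      have hs'0 := hs'
      rw [mem_chFam] at hs'
      have hlt : ∀ x y, s' x v → s' u y → lt x y := by
        intro x y hx hy
        have hxu : lt x u := by
          rcases h1 x (s'.symm hx) with h | h
          · rw [h]; exact hvu
          · exact htrans x v u h hvu
        rcases h2 y hy with h | h
        · rw [h]; exact hxu
        · exact htrans x u y hxu h
      rw [mem_filter, mem_chFam]
      refine ⟨⟨?_, ?_, ?_⟩, ?_, hvu, ?_⟩
      · rintro x y (h | ⟨h4, h5⟩ | ⟨h4, h5⟩)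
        · exact hs'.1 x y h
        · exact Or.inr (Or.inr (hlt y x (s'.symm h5) (s'.symm h4)))
        · exact Or.inr (Or.inl (hlt x y h4 h5))
      · intro x hx y hxy
        have hxnot : Sum.inl x ∉ (S.erase (Sum.inl v)).erase (Sum.inr u) := by
          intro h
          exact hx (Finset.mem_of_mem_erase (Finset.mem_of_mem_erase h))
        rcases hxy with h | ⟨h4, h5⟩ | ⟨h4, h5⟩
        · exact hs'.2.1 x hxnot y h
        · exact hasymm _ _ (hlt y x (s'.symm h5) (s'.symm h4))
        · -- `x` in the class of `v`, and a top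
          exfalso
          rcases h1 x (s'.symm h4) with h | h
          · rw [h] at hx; exact hx hv
          · exact hs'.2.1 x hxnot v h4 h
      · intro x hx y hxy
        have hxnot : Sum.inr x ∉ (S.erase (Sum.inl v)).erase (Sum.inr u) := by
          intro h
          exact hx (Finset.mem_of_mem_erase (Finset.mem_of_mem_erase h))
        rcases hxy with h | ⟨h4, h5⟩ | ⟨h4, h5⟩
        · exact hs'.2.2 x hxnot y h
        · exfalso
          rcases h2 x (s'.symm h4) with h | h
          · rw [h] at hx; exact hx huS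
          · exact hs'.2.2 x hxnot u h4 h
        · exact hasymm _ _ (hlt x y h4 h5)
      · exact Or.inr (Or.inr ⟨s'.refl v, s'.refl u⟩)
      · intro x hx hvx hxu
        rcases hx with h | ⟨h4, h5⟩ | ⟨h4, h5⟩
        · rcases h1 x h with h | h
          · rw [h] at hvx; exact hirr v hvx
          · exact hasymm _ _ hvx h
        · exact h3 (s'.symm h4)
        · rcases h2 x h5 with h | h
          · rw [h] at hxu; exact hirr u hxu
          · exact hasymm _ _ hxu h
    · intro s hs
      rw [mem_filter] at hs
      obtain ⟨hs0, hs1, _, hs2⟩ := hs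
      have hs3 := hs0
      rw [mem_chFam] at hs3 ⊢
      refine ⟨fun x y h => hs3.1 x y h.1, ?_, ?_⟩
      · intro x hx y hxy
        by_cases hxv : x = v
        · subst hxv
          intro h
          have := (hxy.2 (s.refl x)).mpr h
          exact hirr x this
        · apply hs3.2.1 x _ y hxy.1
          intro h
          exact hx (Finset.mem_erase.mpr ⟨by simp, Finset.mem_erase.mpr
            ⟨fun h' => hxv (Sum.inl.inj h'), h⟩⟩)
      · intro x hx y hxy
        by_cases hxu : x = u
        · subst hxu
          intro h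
          have h5 : lt v y := (hxy.2 (s.symm hs1)).mp hvu
          exact hs2 y (s.trans hs1 hxy.1) h5 h
        · apply hs3.2.2 x _ y hxy.1
          intro h
          exact hx (Finset.mem_erase.mpr ⟨fun h' => hxu (Sum.inr.inj h'), Finset.mem_erase.mpr
            ⟨by simp, h⟩⟩)
    · intro s' hs'
      obtain ⟨h1, h2, h3⟩ := hsing s' hs'
      have hcl : ∀ x, mergeS s' u v x v → s' x u ∨ s' x v := by
        rintro x (h | ⟨h4, _⟩ | ⟨h4, _⟩)
        · exact Or.inr h
        · exact Or.inl h4
        · exact Or.inr h4
      have hup : ∀ x, s' x u → lt v x := by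
        intro x hx
        rcases h2 x (s'.symm hx) with h | h
        · rw [h]; exact hvu
        · exact htrans v u x hvu h
      have hdn : ∀ x, s' x v → ¬ lt v x := by
        intro x hx
        rcases h1 x (s'.symm hx) with h | h
        · rw [h]; exact hirr v
        · exact hasymm _ _ h
      ext x y
      constructor
      · rintro ⟨h | ⟨h4, h5⟩ | ⟨h4, h5⟩, h6⟩
        · exact h
        · exfalso
          have h7 := h6 (Or.inr (Or.inl ⟨h4, s'.refl v⟩))
          exact hdn y (s'.symm h5) (h7.mp (hup x h4))
        · exfalso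
          have h7 := h6 (Or.inl h4)
          exact hdn x h4 (h7.mpr (hup y (s'.symm h5)))
      · intro h
        refine ⟨Or.inl h, ?_⟩
        intro h6
        rcases hcl x h6 with h7 | h7
        · exact iff_of_true (hup x h7) (hup y (s'.trans (s'.symm h) h7))
        · exact iff_of_false (hdn x h7) (hdn y (s'.trans (s'.symm h) h7))
    · intro s hs
      rw [mem_filter] at hs
      obtain ⟨hs0, hs1, _, hs2⟩ := hs
      have hs3 := hs0
      rw [mem_chFam] at hs3
      ext x y
      constructor
      · rintro (⟨h, _⟩ | ⟨⟨h4, _⟩, ⟨h5, _⟩⟩ | ⟨⟨h4, _⟩, ⟨h5, _⟩⟩)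
        · exact h
        · exact s.trans (s.trans h4 (s.symm hs1)) h5
        · exact s.trans (s.trans h4 hs1) h5
      · intro h
        by_cases hx : s x v
        · have hy : s y v := s.trans (s.symm h) hx
          -- elements above `v` are equivalent to `u`, the others to `v`
          have hupu : ∀ z, s z v → lt v z → cutS lt s v z u := by
            intro z hz hvz
            exact ⟨s.trans hz hs1, fun _ => iff_of_true hvz hvu⟩
          have hdnv : ∀ z, s z v → ¬ lt v z → cutS lt s v z v := by
            intro z hz hvz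
            exact ⟨hz, fun _ => iff_of_false hvz (hirr v)⟩
          by_cases hx1 : lt v x <;> by_cases hy1 : lt v y
          · exact Or.inl ⟨h, fun _ => iff_of_true hx1 hy1⟩
          · exact Or.inr (Or.inl ⟨hupu x hx hx1, (cutS lt s v).symm (hdnv y hy hy1)⟩)
          · exact Or.inr (Or.inr ⟨hdnv x hx hx1, (cutS lt s v).symm (hupu y hy hy1)⟩)
          · exact Or.inl ⟨h, fun _ => iff_of_false hx1 hy1⟩
        · exact Or.inl ⟨h, fun h' => absurd h' hx⟩
    · intro s' hs'
      obtain ⟨h1, h2, h3⟩ := hsing s' hs'
      have hc := card_mergeS s' u v h3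
      have hle := card_quotient_le s'
      have hle' := card_quotient_le (mergeS s' u v)
      have : Fintype.card V - Nat.card (Quotient (mergeS s' u v)) =
          (Fintype.card V - Nat.card (Quotient s')) + 1 := by omega
      rw [this]
      push_cast
      ring_nf
  unfold chA at hterm ⊢
  rw [hsplit, Finset.sum_union hdisj, Finset.sum_biUnion hpair]
  congr 1
  apply Finset.sum_congr rfl
  intro u hu
  exact hterm u hu

/-- swapping the two sides -/
def swapF (S : Finset (V ⊕ V)) : Finset (V ⊕ V) := S.map (Equiv.sumComm V V).toEmbedding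

lemma inl_mem_swapF (S : Finset (V ⊕ V)) (x : V) : Sum.inl x ∈ swapF S ↔ Sum.inr x ∈ S := by
  unfold swapF
  rw [Finset.mem_map_equiv]
  simp

lemma inr_mem_swapF (S : Finset (V ⊕ V)) (x : V) : Sum.inr x ∈ swapF S ↔ Sum.inl x ∈ S := by
  unfold swapF
  rw [Finset.mem_map_equiv]
  simp

lemma chFam_swap [Fintype V] (lt : V → V → Prop) (S : Finset (V ⊕ V)) :
    chFam (fun x y => lt y x) (swapF S) = chFam lt S := by
  ext s
  rw [mem_chFam, mem_chFam]
  simp only [inl_mem_swapF, inr_mem_swapF]
  constructor
  · rintro ⟨h0, h1, h2⟩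
    exact ⟨fun x y h => by rcases h0 x y h with h | h | h <;> tauto, h2, h1⟩
  · rintro ⟨h0, h1, h2⟩
    exact ⟨fun x y h => by rcases h0 x y h with h | h | h <;> tauto, h2, h1⟩

lemma chA_swap [Fintype V] (lt : V → V → Prop) (S : Finset (V ⊕ V)) (w : ℂ) :
    chA (fun x y => lt y x) (swapF S) w = chA lt S w := by
  unfold chA
  rw [chFam_swap]

lemma swapF_erase [DecidableEq V] (S : Finset (V ⊕ V)) (a : V ⊕ V) :
    swapF (S.erase a) = (swapF S).erase a.swap := by
  ext b
  rcases b with b | b <;> rcases a with a | a <;>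
    simp [inl_mem_swapF, inr_mem_swapF]

theorem chA_matchRec [Fintype V] [DecidableEq V] (lt : V → V → Prop) [DecidableRel lt]
    [DecidableRel (chG lt)]
    (hirr : ∀ x, ¬ lt x x) (htrans : ∀ x y z, lt x y → lt y z → lt x z) :
    MatchRec (chG lt) (chA lt) := by
  classical
  constructor
  · intro w
    unfold chA
    rw [chFam_empty lt hirr, Finset.sum_singleton, card_quotient_bot]
    simp
  · intro S a ha w
    rcases a with v | v
    · rw [chA_step_inl lt hirr htrans S v ha w]
      congr 1
      symm
      have himg : (S.erase (Sum.inl v)).filter (fun u => chG lt (Sum.inl v) u) =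
          ((univ : Finset V).filter (fun u => lt v u ∧ Sum.inr u ∈ S)).map
            ⟨Sum.inr, Sum.inr_injective⟩ := by
        ext b
        rcases b with b | b
        · simp [chG]
        · simp [chG, and_comm]
      rw [himg, Finset.sum_map]
      rfl
    · have h1 := chA_step_inl (fun x y => lt y x) hirr (fun x y z h1 h2 => htrans z y x h2 h1)
        (swapF S) v ((inl_mem_swapF S v).mpr ha) w
      rw [chA_swap] at h1
      have h2 : (swapF S).erase (Sum.inl v) = swapF (S.erase (Sum.inr v)) := by
        rw [swapF_erase]; rfl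
      rw [h2, chA_swap] at h1
      rw [h1]
      congr 1
      symm
      have himg : (S.erase (Sum.inr v)).filter (fun u => chG lt (Sum.inr v) u) =
          ((univ : Finset V).filter (fun u => lt u v ∧ Sum.inr u ∈ swapF S)).map
            ⟨Sum.inl, Sum.inl_injective⟩ := by
        ext b
        rcases b with b | b
        · simp [chG, and_comm, inr_mem_swapF]
        · simp [chG]
      rw [himg, Finset.sum_map]
      apply Finset.sum_congr rfl
      intro u hu
      have h3 : (swapF (S.erase (Sum.inr v))).erase (Sum.inr u) =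
          swapF ((S.erase (Sum.inr v)).erase (Sum.inl u)) := by
        rw [swapF_erase _ (Sum.inl u)]; rfl
      rw [h3, chA_swap]
      rfl

/-- link with the functional `L` -/
theorem chA_univ [Fintype V] (G : SimpleGraph V) (lt : V → V → Prop)
    (hG : ∀ u v, ¬ G.Adj u v ↔ u = v ∨ lt u v ∨ lt v u) (w : ℂ) :
    chA lt univ w = L w (sigmaPoly G).reverse := by
  rw [← famA_univ]
  unfold chA famA
  have : chFam lt univ = fam G univ := by
    ext s
    rw [mem_chFam, mem_fam]
    simp [hG]
  rw [this]

end MP_1e1ce6_co
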