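import Mathlib

/-!
# MP_1e1ce6_co : a positivity cone

`g s = 1/Γ(s)`, `L w N = ∑ N_j g(w+j)`.
-/

namespace MP_1e1ce6_co

open Finset Polynomial

/-- the reciprocal Gamma function -/
noncomputable def g (s : ℂ) : ℂ := (Complex.Gamma s)⁻¹

lemma g_rec (s : ℂ) : g s = s * g (s + 1) :=
  Complex.one_div_Gamma_eq_self_mul_one_div_Gamma_add_one s

lemma g_ne_zero {s : ℂ} (hs : 0 ≤ s.re) (hs0 : s ≠ 0) : g s ≠ 0 := by
  unfold g
  apply inv_ne_zero
  apply Complex.Gamma_ne_zero
  intro m hm
  rw [hm] at hs hs0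
  simp only [Complex.neg_re, Complex.natCast_re, Left.nonneg_neg_iff] at hs
  have : m = 0 := by
    have h1 : (m : ℝ) = 0 := le_antisymm hs (Nat.cast_nonneg m)
    exact_mod_cast h1
  subst this
  simp at hs0

lemma g_conj (s : ℂ) : g (starRingEnd ℂ s) = starRingEnd ℂ (g s) := by
  unfold g
  rw [Complex.Gamma_conj, map_inv₀]

/-- the functional `x^j ↦ g(w+j)` -/
noncomputable def L (w : ℂ) (N : ℝ[X]) : ℂ := N.sum (fun j a => (a : ℂ) * g (w + j))

lemma L_add (w : ℂ) (N M : ℝ[X]) : L w (N + M) = L w N + L w M := by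
  unfold L
  apply Polynomial.sum_add_index
  · intro i; simp
  · intro i a b; push_cast; ring

lemma L_monomial (w : ℂ) (j : ℕ) (a : ℝ) : L w (monomial j a) = a * g (w + j) := by
  unfold L
  apply Polynomial.sum_monomial_index
  simp

lemma L_C_mul (w : ℂ) (c : ℝ) (N : ℝ[X]) : L w (C c * N) = c * L w N := by
  induction N using Polynomial.induction_on' with
  | add p q hp hq => rw [mul_add, L_add, L_add, hp, hq, mul_add]
  | monomial n a =>
    rw [C_mul_monomial, L_monomial, L_monomial]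
    push_cast
    ring

lemma L_X_mul (w : ℂ) (N : ℝ[X]) : L w (X * N) = L (w + 1) N := by
  induction N using Polynomial.induction_on' with
  | add p q hp hq => rw [mul_add, L_add, L_add, hp, hq]
  | monomial n a =>
    rw [X_mul_monomial, L_monomial, L_monomial]
    push_cast
    ring_nf

lemma L_one (w : ℂ) : L w 1 = g w := by
  rw [← monomial_zero_one, L_monomial]
  simp

/-- the generators of the cone -/
noncomputable def Phi (p r : ℕ) (w w' : ℂ) : ℂ :=
  (descPochhammer ℂ p).eval (w + w' + 2 * r - 2) * (g (w + r) * g (w' + r))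

lemma Phi_V (p r : ℕ) (w w' : ℂ) : Phi p r (w + 1) (w' + 1) = Phi p (r + 1) w w' := by
  unfold Phi
  push_cast
  ring_nf

lemma Phi_U (p r : ℕ) (w w' : ℂ) :
    Phi p r (w + 1) w' + Phi p r w (w' + 1) = Phi (p + 1) (r + 1) w w' := by
  unfold Phi
  rw [descPochhammer_succ_left, eval_mul, eval_X, eval_comp, eval_sub, eval_X, eval_one]
  have h1 : g (w + r) = (w + r) * g (w + r + 1) := g_rec _
  have h2 : g (w' + r) = (w' + r) * g (w' + r + 1) := g_rec _
  have e1 : w + 1 + r = w + r + 1 := by ring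
  have e2 : w' + 1 + r = w' + r + 1 := by ring
  have e3 : w + 1 + w' + 2 * r - 2 = w + w' + 2 * ((r + 1 : ℕ) : ℂ) - 2 - 1 := by
    push_cast; ring
  have e4 : w + (w' + 1) + 2 * r - 2 = w + w' + 2 * ((r + 1 : ℕ) : ℂ) - 2 - 1 := by
    push_cast; ring
  have e5 : w + ((r + 1 : ℕ) : ℂ) = w + r + 1 := by push_cast; ring
  have e6 : w' + ((r + 1 : ℕ) : ℂ) = w' + r + 1 := by push_cast; ring
  rw [e1, e2, e3, e4, e5, e6, h1, h2]
  push_cast
  ring

/-- the cone generated by the functions `Phi p r`, `p ≤ r` -/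
inductive ConeF : (ℂ → ℂ → ℂ) → Prop
  | zero : ConeF (fun _ _ => 0)
  | base (p r : ℕ) (h : p ≤ r) : ConeF (Phi p r)
  | add (f f' : ℂ → ℂ → ℂ) (hf : ConeF f) (hf' : ConeF f') : ConeF (fun w w' => f w w' + f' w w')
  | smul (c : ℝ) (f : ℂ → ℂ → ℂ) (hc : 0 ≤ c) (hf : ConeF f) : ConeF (fun w w' => c * f w w')

lemma ConeF.congr {f f' : ℂ → ℂ → ℂ} (hf : ConeF f) (h : ∀ w w', f' w w' = f w w') : ConeF f' := by
  have : f' = f := by
    funext w w'
    exact h w w'
  rw [this]
  exact hf

lemma ConeF.V {f : ℂ → ℂ → ℂ} (hf : ConeF f) : ConeF (fun w w' => f (w + 1) (w' + 1)) := by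
  induction hf with
  | zero => exact ConeF.zero
  | base p r h =>
    exact (ConeF.base p (r + 1) (by omega)).congr (fun w w' => Phi_V p r w w')
  | add f f' _ _ ih ih' => exact ConeF.add _ _ ih ih'
  | smul c f hc _ ih => exact ConeF.smul c _ hc ih

lemma ConeF.U {f : ℂ → ℂ → ℂ} (hf : ConeF f) :
    ConeF (fun w w' => f (w + 1) w' + f w (w' + 1)) := by
  induction hf with
  | zero => exact ConeF.zero.congr (fun w w' => by ring)
  | base p r h =>
    exact (ConeF.base (p + 1) (r + 1) (by omega)).congr (fun w w' => Phi_U p r w w')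
  | add f f' _ _ ih ih' => exact (ConeF.add _ _ ih ih').congr (fun w w' => by ring)
  | smul c f hc _ ih => exact (ConeF.smul c _ hc ih).congr (fun w w' => by ring)

/-- nonnegativity of the falling factorial -/
lemma descPoch_nonneg (p r : ℕ) (h : p ≤ r) (x : ℝ) (hx : 0 ≤ x) :
    0 ≤ (descPochhammer ℝ p).eval (x + 2 * r - 2) := by
  rcases Nat.eq_zero_or_pos p with hp | hp
  · subst hp; simp
  rw [descPochhammer_eval_eq_prod_range]
  apply Finset.prod_nonneg
  intro i hi
  have hi' := Finset.mem_range.mp hi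
  have h1 : (i:ℝ) + 1 ≤ p := by exact_mod_cast hi'
  have h2 : (p:ℝ) ≤ r := by exact_mod_cast h
  have h3 : (1:ℝ) ≤ p := by exact_mod_cast hp
  linarith

lemma Phi_diag (p r : ℕ) (w : ℂ) : Phi p r w (starRingEnd ℂ w) =
    (((descPochhammer ℝ p).eval (2 * w.re + 2 * r - 2) * Complex.normSq (g (w + r)) : ℝ) : ℂ) := by
  unfold Phi
  have h1 : w + starRingEnd ℂ w + 2 * r - 2 = ((2 * w.re + 2 * r - 2 : ℝ) : ℂ) := by
    rw [Complex.add_conj]
    push_cast
    ring
  have h2 : (descPochhammer ℂ p).eval (((2 * w.re + 2 * r - 2 : ℝ) : ℂ)) =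
      (((descPochhammer ℝ p).eval (2 * w.re + 2 * r - 2) : ℝ) : ℂ) := by
    rw [descPochhammer_eval_eq_prod_range, descPochhammer_eval_eq_prod_range]
    push_cast
    rfl
  have h3 : g (starRingEnd ℂ w + r) = starRingEnd ℂ (g (w + r)) := by
    rw [← g_conj]
    congr 1
    simp
  rw [h1, h2, h3, Complex.mul_conj]
  push_cast
  ring

lemma ConeF.nonneg {f : ℂ → ℂ → ℂ} (hf : ConeF f) (w : ℂ) (hw : 0 ≤ w.re) :
    0 ≤ (f w (starRingEnd ℂ w)).re := by
  induction hf with
  | zero => simp
  | base p r h =>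
    rw [Phi_diag, Complex.ofReal_re]
    exact mul_nonneg (descPoch_nonneg p r h _ (by linarith)) (Complex.normSq_nonneg _)
  | add f f' _ _ ih ih' => simpa using add_nonneg ih ih'
  | smul c f hc _ ih =>
    rw [Complex.re_ofReal_mul]
    exact mul_nonneg hc ih

/-- `N` is good if `L w N * L w' N` is `g w * g w'` plus an element of the cone -/
def Good (N : ℝ[X]) : Prop :=
  ∃ f, ConeF f ∧ ∀ w w', L w N * L w' N = Phi 0 0 w w' + f w w'

lemma Phi_zero_zero (w w' : ℂ) : Phi 0 0 w w' = g w * g w' := by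
  simp [Phi]

lemma good_one : Good 1 :=
  ⟨_, ConeF.zero, fun w w' => by rw [L_one, L_one, Phi_zero_zero]; ring⟩

lemma good_linear {N : ℝ[X]} (hN : Good N) {ρ : ℝ} (hρ : 0 ≤ ρ) :
    Good ((1 + C ρ * X) * N) := by
  obtain ⟨f, hf, h⟩ := hN
  have h00 : ConeF (Phi 0 0) := ConeF.base 0 0 le_rfl
  have ht : ConeF (fun w w' => Phi 0 0 w w' + f w w') := ConeF.add _ _ h00 hf
  have hL : ∀ w, L w ((1 + C ρ * X) * N) = L w N + ρ * L (w + 1) N := by
    intro w
    rw [add_mul, one_mul, mul_assoc, L_add, L_C_mul, L_X_mul]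
  refine ⟨_, ConeF.add _ _ hf (ConeF.add _ _ (ConeF.smul ρ _ hρ ht.U)
    (ConeF.smul (ρ ^ 2) _ (sq_nonneg ρ) ht.V)), ?_⟩
  intro w w'
  have e1 := h w w'
  have e2 := h (w + 1) w'
  have e3 := h w (w' + 1)
  have e4 := h (w + 1) (w' + 1)
  rw [hL, hL, ← e2, ← e3, ← e4]
  have : Phi 0 0 w w' + (f w w' + (↑ρ * (L (w + 1) N * L w' N + L w N * L (w' + 1) N) +
      ↑(ρ ^ 2) * (L (w + 1) N * L (w' + 1) N))) = (Phi 0 0 w w' + f w w') +
      (↑ρ * (L (w + 1) N * L w' N + L w N * L (w' + 1) N) +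
      ↑(ρ ^ 2) * (L (w + 1) N * L (w' + 1) N)) := by ring
  rw [this, ← e1]
  push_cast
  ring

lemma good_quadratic {N : ℝ[X]} (hN : Good N) {a b : ℝ} (hab : |b| ≤ a) :
    Good ((1 + C (2 * a) * X + C (a ^ 2 + b ^ 2) * X ^ 2) * N) := by
  obtain ⟨f, hf, h⟩ := hN
  have h00 : ConeF (Phi 0 0) := ConeF.base 0 0 le_rfl
  have ht : ConeF (fun w w' => Phi 0 0 w w' + f w w') := ConeF.add _ _ h00 hf
  set c := a ^ 2 + b ^ 2 with hc
  have hb0 := abs_nonneg b
  have ha : 0 ≤ a := hb0.trans hab
  have hc0 : 0 ≤ c := by positivity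
  have hd : 0 ≤ 4 * a ^ 2 - 2 * c := by
    have : b ^ 2 ≤ a ^ 2 := sq_le_sq' (by linarith [neg_abs_le b]) ((le_abs_self b).trans hab)
    rw [hc]; linarith
  have hL : ∀ w, L w ((1 + C (2 * a) * X + C c * X ^ 2) * N) =
      L w N + (2 * a) * L (w + 1) N + c * L (w + 2) N := by
    intro w
    have : (1 + C (2 * a) * X + C c * X ^ 2) * N =
        N + C (2 * a) * (X * N) + C c * (X * (X * N)) := by ring
    rw [this, L_add, L_add, L_C_mul, L_C_mul, L_X_mul, L_X_mul, L_X_mul]
    have e : w + 1 + 1 = w + 2 := by ring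
    rw [e]
    push_cast
    ring
  refine ⟨_, ConeF.add _ _ hf
    (ConeF.add _ _ (ConeF.smul (2 * a) _ (by linarith) ht.U)
    (ConeF.add _ _ (ConeF.smul c _ hc0 ht.U.U)
    (ConeF.add _ _ (ConeF.smul (4 * a ^ 2 - 2 * c) _ hd ht.V)
    (ConeF.add _ _ (ConeF.smul (2 * a * c) _ (by positivity) ht.U.V)
    (ConeF.smul (c ^ 2) _ (sq_nonneg c) ht.V.V))))), ?_⟩
  intro w w'
  rw [hL, hL]
  have s1 : w + 1 + 1 = w + 2 := by ring
  have s2 : w' + 1 + 1 = w' + 2 := by ring
  rw [s1, s2]
  simp only [← h]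
  have e1 := h w w'
  have key : ∀ Y : ℂ, Phi 0 0 w w' + (f w w' + Y) = L w N * L w' N + Y := by
    intro Y; rw [e1]; ring
  rw [key]
  push_cast
  ring

lemma reverse_linear (r : ℝ) : (X - C r : ℝ[X]).reverse = 1 + C (-r) * X := by
  unfold reverse
  rw [natDegree_X_sub_C, sub_eq_add_neg, ← C_neg, reflect_add, reflect_one_X, reflect_C, pow_one]

lemma natDegree_quad (u v : ℝ) : (X ^ 2 - C u * X + C v : ℝ[X]).natDegree = 2 := by
  have : (X ^ 2 - C u * X + C v : ℝ[X]) = C 1 * X ^ 2 + C (-u) * X + C v := by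
    rw [C_1, C_neg]; ring
  rw [this]
  exact natDegree_quadratic one_ne_zero

lemma monic_quad (u v : ℝ) : (X ^ 2 - C u * X + C v : ℝ[X]).Monic := by
  have : (X ^ 2 - C u * X + C v : ℝ[X]) = C 1 * X ^ 2 + C (-u) * X + C v := by
    rw [C_1, C_neg]; ring
  unfold Monic
  rw [this]
  exact leadingCoeff_quadratic one_ne_zero

lemma reverse_quad (u v : ℝ) :
    (X ^ 2 - C u * X + C v : ℝ[X]).reverse = 1 + C (-u) * X + C v * X ^ 2 := by
  unfold reverse
  rw [natDegree_quad]
  have : (X ^ 2 - C u * X + C v : ℝ[X]) = X ^ 2 + C (-u) * X ^ 1 + C v := by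
    rw [C_neg]; ring
  rw [this, reflect_add, reflect_add, reflect_monomial, reflect_C_mul_X_pow, reflect_C,
    revAt_le (le_refl 2), revAt_le (by norm_num : 1 ≤ 2)]
  norm_num

/-- a real polynomial whose roots lie in the sector `|Im s| ≤ - Re s` -/
theorem good_reverse : ∀ (n : ℕ) (σ : ℝ[X]), σ.natDegree = n → σ.Monic →
    (∀ s : ℂ, aeval s σ = 0 → |s.im| ≤ -s.re) → Good σ.reverse := by
  intro n
  induction n using Nat.strong_induction_on with
  | _ n ih =>
    intro σ hdeg hmon hroot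
    rcases Nat.eq_zero_or_pos n with hn | hn
    · subst hn
      have : σ = 1 := by
        rw [← hmon.natDegree_eq_zero]
        exact hdeg
      rw [this]
      have : (1 : ℝ[X]).reverse = 1 := by
        rw [← C_1, reverse_C]
      rw [this]
      exact good_one
    · obtain ⟨z, hz⟩ : ∃ z : ℂ, aeval z σ = 0 := by
        apply IsAlgClosed.exists_aeval_eq_zero
        intro h0
        rw [degree_eq_natDegree hmon.ne_zero, hdeg] at h0
        have : n = 0 := by exact_mod_cast h0
        omega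
      have hzs := hroot z hz
      by_cases him : z.im = 0
      · -- real root
        have hzr : z = (z.re : ℂ) := by
          apply Complex.ext <;> simp [him]
        have hev : σ.eval z.re = 0 := by
          have h1 : aeval z σ = ((σ.eval z.re : ℝ) : ℂ) := by
            conv_lhs => rw [hzr]
            exact (aeval_algebraMap_apply ℂ z.re σ)
          rw [h1] at hz
          exact_mod_cast hz
        obtain ⟨τ, hτ⟩ := dvd_iff_isRoot.mpr hev
        have hτmon : τ.Monic := by
          have := hmon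
          rw [hτ] at this
          exact (monic_X_sub_C z.re).of_mul_monic_left this
        have hτdeg : τ.natDegree = n - 1 := by
          have := congrArg natDegree hτ
          rw [(monic_X_sub_C z.re).natDegree_mul hτmon, natDegree_X_sub_C, hdeg] at this
          omega
        have hgood := ih (n - 1) (by omega) τ hτdeg hτmon (by
          intro s hs
          apply hroot
          rw [hτ, map_mul, hs, mul_zero])
        have hrev : σ.reverse = (1 + C (-z.re) * X) * τ.reverse := by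
          rw [hτ, reverse_mul_of_domain, reverse_linear]
        rw [hrev]
        apply good_linear hgood
        rw [him] at hzs
        simpa using hzs
      · -- a pair of complex roots
        obtain ⟨τ, hτ⟩ := σ.quadratic_dvd_of_aeval_eq_zero_im_ne_zero hz him
        have hτmon : τ.Monic := by
          have := hmon
          rw [hτ] at this
          exact (monic_quad _ _).of_mul_monic_left this
        have hτdeg : τ.natDegree + 2 = n := by
          have := congrArg natDegree hτ
          rw [(monic_quad _ _).natDegree_mul hτmon, natDegree_quad, hdeg] at this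
          omega
        have hgood := ih τ.natDegree (by omega) τ rfl hτmon (by
          intro s hs
          apply hroot
          rw [hτ, map_mul, hs, mul_zero])
        have hrev : σ.reverse = (1 + C (2 * (-z.re)) * X + C ((-z.re) ^ 2 + z.im ^ 2) * X ^ 2) *
            τ.reverse := by
          rw [hτ, reverse_mul_of_domain, reverse_quad]
          congr 3
          · congr 2
            ring
          · congr 1
            rw [← Complex.normSq_eq_norm_sq, Complex.normSq_apply]
            ring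
        rw [hrev]
        exact good_quadratic hgood hzs

/-- nonvanishing -/
theorem L_ne_zero {N : ℝ[X]} (hN : Good N) {w : ℂ} (hw : 0 ≤ w.re) (hw0 : w ≠ 0) :
    L w N ≠ 0 := by
  obtain ⟨f, hf, h⟩ := hN
  intro h0
  have h1 := h w (starRingEnd ℂ w)
  rw [h0, zero_mul, Phi_zero_zero, g_conj, Complex.mul_conj] at h1
  have h2 := hf.nonneg w hw
  have h3 : 0 < Complex.normSq (g w) := Complex.normSq_pos.mpr (g_ne_zero hw hw0)
  have h4 := congrArg Complex.re h1
  simp only [Complex.zero_re, Complex.add_re, Complex.ofReal_re] at h4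
  linarith

end MP_1e1ce6_co
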