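import Mathlib

/-!
# MP_1e1ce6_co : colourings of induced subgraphs, adding a vertex, deletion-contraction

All graphs live on one finite vertex type `V`; `Col s A κ` are the proper colourings with colours
in `κ` of the subgraph of `A` induced on the finite set `s` (value `none` outside `s`), and
`Col2 s A T κ` are such colourings together with a colour that is not used on `T`, that is, the
proper colourings of the graph obtained by adding a new vertex adjacent exactly to `T`.
-/

namespace MP_1e1ce6_co.H91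

open Finset Polynomial

set_option linter.unusedSectionVars false

variable {V : Type*} [Fintype V] [DecidableEq V]

/-- proper colourings of the subgraph of `A` induced on `s` -/
abbrev Col (s : Finset V) (A : SimpleGraph V) (κ : Type) : Type _ :=
  {c : V → Option κ // (∀ x, c x = none ↔ x ∉ s) ∧
    ∀ x y, A.Adj x y → x ∈ s → y ∈ s → c x ≠ c y}

/-- proper colourings of the subgraph of `A` induced on `s`, with a colour not used on `T` -/
abbrev Col2 (s : Finset V) (A : SimpleGraph V) (T : Finset V) (κ : Type) : Type _ :=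
  {c : (Col s A κ) × κ // ∀ t ∈ T, c.1.1 t ≠ some c.2}


noncomputable def N (s : Finset V) (A : SimpleGraph V) (q : ℕ) : ℕ := Nat.card (Col s A (Fin q))

noncomputable def N2 (s : Finset V) (A : SimpleGraph V) (T : Finset V) (q : ℕ) : ℕ :=
  Nat.card (Col2 s A T (Fin q))

/-- make `x` adjacent to all vertices of `T` (except `x`) as well -/
def addE (A : SimpleGraph V) (x : V) (T : Finset V) : SimpleGraph V where
  Adj a b := A.Adj a b ∨ (a ≠ b ∧ ((a = x ∧ b ∈ T) ∨ (b = x ∧ a ∈ T)))
  symm := ⟨by
    intro a b h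
    rcases h with h | ⟨h1, h2⟩
    · exact Or.inl h.symm
    · exact Or.inr ⟨h1.symm, h2.symm⟩⟩
  loopless := ⟨by
    intro a h
    rcases h with h | ⟨h1, _⟩
    · exact A.loopless.irrefl a h
    · exact h1 rfl⟩

lemma addE_adj {A : SimpleGraph V} {x : V} {T : Finset V} {a b : V} :
    (addE A x T).Adj a b ↔
      A.Adj a b ∨ (a ≠ b ∧ ((a = x ∧ b ∈ T) ∨ (b = x ∧ a ∈ T))) := Iff.rfl

/-- neighbours of `v` in `s` -/
noncomputable def nb (A : SimpleGraph V) (v : V) (s : Finset V) : Finset V := by
  classical exact s.filter (fun x => A.Adj v x)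

lemma mem_nb {A : SimpleGraph V} {v x : V} {s : Finset V} : x ∈ nb A v s ↔ x ∈ s ∧ A.Adj v x := by
  classical
  unfold nb
  rw [Finset.mem_filter]

lemma Col_congr {s : Finset V} {A B : SimpleGraph V} (κ : Type)
    (h : ∀ x ∈ s, ∀ y ∈ s, (A.Adj x y ↔ B.Adj x y)) : Col s A κ = Col s B κ := by
  unfold Col
  congr 1
  ext c
  constructor
  · rintro ⟨h1, h2⟩
    exact ⟨h1, fun x y hxy hx hy => h2 x y ((h x hx y hy).mpr hxy) hx hy⟩
  · rintro ⟨h1, h2⟩
    exact ⟨h1, fun x y hxy hx hy => h2 x y ((h x hx y hy).mp hxy) hx hy⟩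

lemma N_congr {s : Finset V} {A B : SimpleGraph V} (q : ℕ)
    (h : ∀ x ∈ s, ∀ y ∈ s, (A.Adj x y ↔ B.Adj x y)) : N s A q = N s B q := by
  unfold N
  rw [Col_congr (Fin q) h]

lemma N2_congr {s : Finset V} {A B : SimpleGraph V} (T : Finset V) (q : ℕ)
    (h : ∀ x ∈ s, ∀ y ∈ s, (A.Adj x y ↔ B.Adj x y)) : N2 s A T q = N2 s B T q := by
  unfold N2
  apply Nat.card_congr
  refine ⟨fun c => ⟨(⟨c.1.1.1, c.1.1.2.1, ?_⟩, c.1.2), c.2⟩,
    fun c => ⟨(⟨c.1.1.1, c.1.1.2.1, ?_⟩, c.1.2), c.2⟩, ?_, ?_⟩
  · intro x y hxy hx hy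
    exact c.1.1.2.2 x y ((h x hx y hy).mpr hxy) hx hy
  · intro x y hxy hx hy
    exact c.1.1.2.2 x y ((h x hx y hy).mp hxy) hx hy
  · intro c; rfl
  · intro c; rfl

lemma N_empty (A : SimpleGraph V) (q : ℕ) : N ∅ A q = 1 := by
  unfold N
  rw [Nat.card_eq_one_iff_unique]
  constructor
  · constructor
    rintro ⟨c, hc, _⟩ ⟨d, hd, _⟩
    apply Subtype.ext
    funext x
    show c x = d x
    rw [(hc x).mpr (by simp), (hd x).mpr (by simp)]
  · exact ⟨⟨fun _ => none, by simp, by simp⟩⟩

lemma N2_empty (s : Finset V) (A : SimpleGraph V) (q : ℕ) : N2 s A ∅ q = q * N s A q := by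
  unfold N2 N
  have h : Nat.card (Col2 s A ∅ (Fin q)) = Nat.card (Col s A (Fin q) × Fin q) := by
    apply Nat.card_congr
    exact ⟨fun c => c.1, fun c => ⟨c, by simp⟩, fun c => rfl, fun c => rfl⟩
  rw [h, Nat.card_prod, Nat.card_eq_fintype_card (α := Fin q), Fintype.card_fin, mul_comm]

/-- a vertex outside `s` does not matter -/
lemma N2_insert_not_mem (s : Finset V) (A : SimpleGraph V) (T : Finset V) (q : ℕ) {x : V}
    (hx : x ∉ s) : N2 s A (insert x T) q = N2 s A T q := by
  unfold N2
  apply Nat.card_congr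
  refine ⟨fun c => ⟨c.1, fun t ht => c.2 t (Finset.mem_insert_of_mem ht)⟩,
    fun c => ⟨c.1, fun t ht => ?_⟩, fun c => rfl, fun c => rfl⟩
  rcases Finset.mem_insert.mp ht with rfl | ht
  · rw [(c.1.1.2.1 t).mpr hx]
    simp
  · exact c.2 t ht

/-- deletion-contraction -/
lemma N2_insert (s : Finset V) (A : SimpleGraph V) (T : Finset V) (q : ℕ) {x : V}
    (hx : x ∈ s) (hxT : x ∉ T) :
    N2 s A T q = N2 s A (insert x T) q + N s (addE A x T) q := by
  unfold N2 N
  rw [← Nat.card_sum]
  apply Nat.card_congr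
  classical
  have P1 : ∀ c : Col2 s A T (Fin q), c.1.1.1 x = some c.1.2 →
      ∀ a b, (addE A x T).Adj a b → a ∈ s → b ∈ s → c.1.1.1 a ≠ c.1.1.1 b := by
    intro c h a b hab ha hb
    rcases addE_adj.mp hab with hab | ⟨hne, ⟨h1, h2⟩ | ⟨h1, h2⟩⟩
    · exact c.1.1.2.2 a b hab ha hb
    · subst h1
      rw [h]
      exact (c.2 b h2).symm
    · subst h1
      rw [h]
      exact c.2 a h2
  have P2 : ∀ c : Col2 s A T (Fin q), ¬ c.1.1.1 x = some c.1.2 →
      ∀ t ∈ insert x T, c.1.1.1 t ≠ some c.1.2 := by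
    intro c h t ht
    rcases Finset.mem_insert.mp ht with rfl | ht
    · exact h
    · exact c.2 t ht
  have P3 : ∀ c : Col s (addE A x T) (Fin q), (c.1 x).isSome = true := by
    intro c
    rw [Option.isSome_iff_ne_none]
    intro h
    exact (c.2.1 x).mp h hx
  have P4 : ∀ c : Col s (addE A x T) (Fin q), ∀ t ∈ T, c.1 t ≠ some ((c.1 x).get (P3 c)) := by
    intro c t ht
    simp only [Option.some_get]
    by_cases hts : t ∈ s
    · exact c.2.2 t x (addE_adj.mpr (Or.inr ⟨fun h => hxT (h ▸ ht), Or.inr ⟨rfl, ht⟩⟩)) hts hx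
    · rw [(c.2.1 t).mpr hts]
      intro h
      exact (c.2.1 x).mp h.symm hx
  have P5 : ∀ c : Col s (addE A x T) (Fin q), ∀ a b, A.Adj a b → a ∈ s → b ∈ s →
      c.1 a ≠ c.1 b := fun c a b hab ha hb => c.2.2 a b (addE_adj.mpr (Or.inl hab)) ha hb
  let f : Col2 s A T (Fin q) → Col2 s A (insert x T) (Fin q) ⊕ Col s (addE A x T) (Fin q) :=
    fun c => if h : c.1.1.1 x = some c.1.2 then
      Sum.inr ⟨c.1.1.1, c.1.1.2.1, P1 c h⟩ else Sum.inl ⟨c.1, P2 c h⟩
  have hf1 : ∀ c (h : c.1.1.1 x = some c.1.2), f c = Sum.inr ⟨c.1.1.1, c.1.1.2.1, P1 c h⟩ :=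
    fun c h => dif_pos h
  have hf2 : ∀ c (h : ¬ c.1.1.1 x = some c.1.2), f c = Sum.inl ⟨c.1, P2 c h⟩ :=
    fun c h => dif_neg h
  refine Equiv.ofBijective f ⟨?_, ?_⟩
  · intro c d hcd
    by_cases hc : c.1.1.1 x = some c.1.2
    · by_cases hd : d.1.1.1 x = some d.1.2
      · rw [hf1 c hc, hf1 d hd] at hcd
        have h0 := Sum.inr.inj hcd
        have h1 : c.1.1.1 = d.1.1.1 := Subtype.mk.inj h0
        apply Subtype.ext
        apply Prod.ext
        · exact Subtype.ext h1
        · rw [h1, hd] at hc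
          exact (Option.some_injective _ hc).symm
      · rw [hf1 c hc, hf2 d hd] at hcd
        exact absurd hcd (by simp)
    · by_cases hd : d.1.1.1 x = some d.1.2
      · rw [hf2 c hc, hf1 d hd] at hcd
        exact absurd hcd (by simp)
      · rw [hf2 c hc, hf2 d hd] at hcd
        have h0 := Sum.inl.inj hcd
        have h1 : c.1 = d.1 := Subtype.mk.inj h0
        exact Subtype.ext h1
  · rintro (c | c)
    · refine ⟨⟨c.1, fun t ht => c.2 t (Finset.mem_insert_of_mem ht)⟩, ?_⟩
      rw [hf2 _ (c.2 x (Finset.mem_insert_self x T))]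
    · refine ⟨⟨(⟨c.1, c.2.1, P5 c⟩, (c.1 x).get (P3 c)), P4 c⟩, ?_⟩
      rw [hf1 _ (by simp)]

/-- removing a vertex `v` of `s` -/
lemma N_eq_N2 (s : Finset V) (A : SimpleGraph V) (q : ℕ) {v : V} (hv : v ∈ s) :
    N s A q = N2 (s.erase v) A (nb A v s) q := by
  unfold N2 N
  apply Nat.card_congr
  classical
  refine ⟨fun c => ⟨(⟨Function.update c.1 v none, ?_, ?_⟩, (c.1 v).get ?_), ?_⟩,
    fun c => ⟨Function.update c.1.1.1 v (some c.1.2), ?_, ?_⟩, ?_, ?_⟩
  · intro x
    by_cases hx : x = v
    · subst hx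
      simp
    · rw [Function.update_of_ne hx, c.2.1 x]
      simp [hx]
  · intro x y hxy hx hy
    rw [Function.update_of_ne (Finset.ne_of_mem_erase hx),
      Function.update_of_ne (Finset.ne_of_mem_erase hy)]
    exact c.2.2 x y hxy (Finset.mem_of_mem_erase hx) (Finset.mem_of_mem_erase hy)
  · rw [Option.isSome_iff_ne_none]
    intro h
    exact (c.2.1 v).mp h hv
  · intro t ht
    rw [mem_nb] at ht
    simp only [Option.some_get]
    rw [Function.update_of_ne ht.2.ne.symm]
    exact c.2.2 t v ht.2.symm ht.1 hv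
  · intro x
    by_cases hx : x = v
    · subst hx
      simp [hv]
    · rw [Function.update_of_ne hx, c.1.1.2.1 x]
      simp [hx]
  · intro x y hxy hx hy
    by_cases hxv : x = v
    · subst hxv
      have hyx : y ≠ x := hxy.ne.symm
      rw [Function.update_self, Function.update_of_ne hyx]
      exact (c.2 y (mem_nb.mpr ⟨hy, hxy⟩)).symm
    · by_cases hyv : y = v
      · subst hyv
        rw [Function.update_self, Function.update_of_ne hxv]
        exact c.2 x (mem_nb.mpr ⟨hx, hxy.symm⟩)
      · rw [Function.update_of_ne hxv, Function.update_of_ne hyv]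
        exact c.1.1.2.2 x y hxy (Finset.mem_erase.mpr ⟨hxv, hx⟩)
          (Finset.mem_erase.mpr ⟨hyv, hy⟩)
  · intro c
    apply Subtype.ext
    funext x
    by_cases hx : x = v
    · subst hx
      simp
    · simp [Function.update_of_ne hx]
  · intro c
    apply Subtype.ext
    apply Prod.ext
    · apply Subtype.ext
      funext x
      by_cases hx : x = v
      · subst hx
        simp only [Function.update_self]
        exact ((c.1.1.2.1 x).mpr (by simp)).symm
      · simp [Function.update_of_ne hx]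
    · simp

lemma card_Col_of_equiv (s : Finset V) (A : SimpleGraph V) {κ κ' : Type} (e : κ ≃ κ') :
    Nat.card (Col s A κ) = Nat.card (Col s A κ') := by
  apply Nat.card_congr
  refine ⟨fun c => ⟨fun x => (c.1 x).map e, ?_, ?_⟩, fun c => ⟨fun x => (c.1 x).map e.symm, ?_, ?_⟩,
    ?_, ?_⟩
  · intro x
    rw [Option.map_eq_none_iff]
    exact c.2.1 x
  · intro x y hxy hx hy h
    exact c.2.2 x y hxy hx hy (Option.map_injective e.injective h)
  · intro x
    rw [Option.map_eq_none_iff]
    exact c.2.1 x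
  · intro x y hxy hx hy h
    exact c.2.2 x y hxy hx hy (Option.map_injective e.symm.injective h)
  · intro c
    apply Subtype.ext
    funext x
    simp
  · intro c
    apply Subtype.ext
    funext x
    simp

/-- the colourings that do not use the colour `k` -/
lemma card_avoid (s : Finset V) (A : SimpleGraph V) {κ : Type} (k : κ) :
    Nat.card {c : Col s A κ // ∀ t ∈ s, c.1 t ≠ some k} = Nat.card (Col s A {j : κ // j ≠ k}) := by
  symm
  let f : Col s A {j : κ // j ≠ k} → {c : Col s A κ // ∀ t ∈ s, c.1 t ≠ some k} := fun c =>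
    ⟨⟨fun x => (c.1 x).map Subtype.val, fun x => by
        rw [Option.map_eq_none_iff]; exact c.2.1 x,
      fun x y hxy hx hy h => c.2.2 x y hxy hx hy (Option.map_injective Subtype.val_injective h)⟩,
      fun t _ h => by
        have h' : Option.map Subtype.val (c.1 t) = some k := h
        rw [Option.map_eq_some_iff] at h'
        obtain ⟨a, _, ha⟩ := h'
        exact a.2 ha⟩
  apply Nat.card_eq_of_bijective f
  constructor
  · intro c d hcd
    apply Subtype.ext
    funext x
    have h1 : (f c).1.1 x = (f d).1.1 x := by rw [hcd]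
    exact Option.map_injective Subtype.val_injective h1
  · intro c
    have key : ∀ x, ∃ o : Option {j : κ // j ≠ k}, o.map Subtype.val = c.1.1 x := by
      intro x
      rcases hcx : c.1.1 x with _ | j
      · exact ⟨none, rfl⟩
      · have hx : x ∈ s := by
          by_contra hx
          rw [(c.1.2.1 x).mpr hx] at hcx
          exact absurd hcx (by simp)
        have hj : j ≠ k := by
          rintro rfl
          exact c.2 x hx hcx
        exact ⟨some ⟨j, hj⟩, rfl⟩
    choose c' hc' using key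
    refine ⟨⟨c', ?_, ?_⟩, ?_⟩
    · intro x
      rw [← c.1.2.1 x, ← hc' x, Option.map_eq_none_iff]
    · intro x y hxy hx hy h
      apply c.1.2.2 x y hxy hx hy
      rw [← hc' x, ← hc' y, h]
    · apply Subtype.ext
      apply Subtype.ext
      funext x
      exact hc' x

/-- a new vertex adjacent to everything -/
lemma N2_self (s : Finset V) (A : SimpleGraph V) (q : ℕ) :
    N2 s A s (q + 1) = (q + 1) * N s A q := by
  unfold N2
  have h : Nat.card (Col2 s A s (Fin (q + 1))) =
      Nat.card (Σ k : Fin (q + 1), {c : Col s A (Fin (q + 1)) // ∀ t ∈ s, c.1 t ≠ some k}) := by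
    apply Nat.card_congr
    exact ⟨fun c => ⟨c.1.2, ⟨c.1.1, c.2⟩⟩, fun c => ⟨(c.2.1, c.1), c.2.2⟩, fun c => rfl,
      fun c => rfl⟩
  rw [h, Nat.card_sigma]
  have h2 : ∀ k : Fin (q + 1),
      Nat.card {c : Col s A (Fin (q + 1)) // ∀ t ∈ s, c.1 t ≠ some k} = N s A q := by
    intro k
    rw [card_avoid]
    unfold N
    apply card_Col_of_equiv
    apply Fintype.equivOfCardEq
    rw [Fintype.card_subtype_compl, Fintype.card_fin, Fintype.card_subtype_eq, Fintype.card_fin]
    rfl
  rw [Finset.sum_congr rfl (fun k _ => h2 k)]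
  simp

lemma N_univ (G : SimpleGraph V) (q : ℕ) : N univ G q = Nat.card (G.Coloring (Fin q)) := by
  unfold N
  apply Nat.card_congr
  refine ⟨fun c => SimpleGraph.Coloring.mk (fun x => (c.1 x).get ?_) ?_,
    fun C => ⟨fun x => some (C x), by simp, ?_⟩, ?_, ?_⟩
  · rw [Option.isSome_iff_ne_none]
    intro h
    exact (c.2.1 x).mp h (Finset.mem_univ x)
  · intro x y hxy h
    apply c.2.2 x y hxy (Finset.mem_univ x) (Finset.mem_univ y)
    exact Option.get_inj.mp h
  · intro x y hxy _ _ h
    exact C.valid hxy (Option.some_injective _ h)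
  · intro c
    apply Subtype.ext
    funext x
    simp [SimpleGraph.Coloring.mk]
  · intro C
    ext x
    rfl

/-! ### polynomials -/

lemma poly_ext {p r : ℂ[X]} (h : ∀ q : ℕ, p.eval ((q : ℂ) + 1) = r.eval ((q : ℂ) + 1)) :
    p = r := by
  apply Polynomial.eq_of_infinite_eval_eq
  apply Set.Infinite.mono (s := Set.range (fun q : ℕ => ((q : ℂ) + 1)))
  · rintro _ ⟨q, rfl⟩
    exact h q
  · apply Set.infinite_range_of_injective
    intro a b h
    have h' : (a : ℂ) + 1 = (b : ℂ) + 1 := h
    exact Nat.cast_injective (R := ℂ) (add_right_cancel h')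

theorem exists_poly (k : ℕ) : ∀ s : Finset V, s.card = k → ∀ A : SimpleGraph V,
    ∃ p : ℂ[X], ∀ q : ℕ, p.eval (q : ℂ) = N s A q := by
  induction k with
  | zero =>
    intro s hs A
    rw [Finset.card_eq_zero] at hs
    subst hs
    exact ⟨1, fun q => by rw [N_empty]; simp⟩
  | succ k ih =>
    intro s hs A
    obtain ⟨v, hv⟩ : s.Nonempty := by
      rw [← Finset.card_pos]; omega
    have hcard : (s.erase v).card = k := by
      rw [Finset.card_erase_of_mem hv]; omega
    have key : ∀ T : Finset V, ∃ p : ℂ[X], ∀ q : ℕ, p.eval (q : ℂ) = N2 (s.erase v) A T q := by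
      intro T
      induction T using Finset.induction_on with
      | empty =>
        obtain ⟨p, hp⟩ := ih _ hcard A
        refine ⟨X * p, fun q => ?_⟩
        rw [Polynomial.eval_mul, Polynomial.eval_X, hp, N2_empty]
        push_cast
        ring
      | insert x T hxT ihT =>
        obtain ⟨p, hp⟩ := ihT
        by_cases hx : x ∈ s.erase v
        · obtain ⟨p', hp'⟩ := ih _ hcard (addE A x T)
          refine ⟨p - p', fun q => ?_⟩
          rw [Polynomial.eval_sub, hp, hp', N2_insert _ A T q hx hxT]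
          push_cast
          ring
        · exact ⟨p, fun q => by rw [hp, N2_insert_not_mem _ _ _ _ hx]⟩
    obtain ⟨p, hp⟩ := key (nb A v s)
    exact ⟨p, fun q => by rw [hp, N_eq_N2 s A q hv]⟩

/-- the chromatic polynomial of the subgraph of `A` induced on `s` -/
noncomputable def P (s : Finset V) (A : SimpleGraph V) : ℂ[X] :=
  (exists_poly s.card s rfl A).choose

lemma P_eval (s : Finset V) (A : SimpleGraph V) (q : ℕ) : (P s A).eval (q : ℂ) = N s A q :=
  (exists_poly s.card s rfl A).choose_spec q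

theorem exists_poly2 (s : Finset V) (A : SimpleGraph V) (T : Finset V) :
    ∃ p : ℂ[X], ∀ q : ℕ, p.eval (q : ℂ) = N2 s A T q := by
  induction T using Finset.induction_on with
  | empty =>
    refine ⟨X * P s A, fun q => ?_⟩
    rw [Polynomial.eval_mul, Polynomial.eval_X, P_eval, N2_empty]
    push_cast
    ring
  | insert x T hxT ihT =>
    obtain ⟨p, hp⟩ := ihT
    by_cases hx : x ∈ s
    · refine ⟨p - P s (addE A x T), fun q => ?_⟩
      rw [Polynomial.eval_sub, hp, P_eval, N2_insert _ A T q hx hxT]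
      push_cast
      ring
    · exact ⟨p, fun q => by rw [hp, N2_insert_not_mem _ _ _ _ hx]⟩

/-- the chromatic polynomial of the graph obtained from the subgraph induced on `s` by adding
a new vertex adjacent exactly to the vertices in `T` -/
noncomputable def PF (s : Finset V) (A : SimpleGraph V) (T : Finset V) : ℂ[X] :=
  (exists_poly2 s A T).choose

lemma PF_eval (s : Finset V) (A : SimpleGraph V) (T : Finset V) (q : ℕ) :
    (PF s A T).eval (q : ℂ) = N2 s A T q :=
  (exists_poly2 s A T).choose_spec q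

lemma P_congr {s : Finset V} {A B : SimpleGraph V}
    (h : ∀ x ∈ s, ∀ y ∈ s, (A.Adj x y ↔ B.Adj x y)) : P s A = P s B := by
  apply poly_ext
  intro q
  have h1 := P_eval s A (q + 1)
  have h2 := P_eval s B (q + 1)
  push_cast at h1 h2
  rw [h1, h2, N_congr _ h]

lemma PF_congr {s : Finset V} {A B : SimpleGraph V} (T : Finset V)
    (h : ∀ x ∈ s, ∀ y ∈ s, (A.Adj x y ↔ B.Adj x y)) : PF s A T = PF s B T := by
  apply poly_ext
  intro q
  have h1 := PF_eval s A T (q + 1)
  have h2 := PF_eval s B T (q + 1)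
  push_cast at h1 h2
  rw [h1, h2, N2_congr _ _ h]

lemma P_empty (A : SimpleGraph V) : P ∅ A = 1 := by
  apply poly_ext
  intro q
  have h1 := P_eval ∅ A (q + 1)
  push_cast at h1
  rw [h1, N_empty]
  simp

lemma P_eq_PF {s : Finset V} (A : SimpleGraph V) {v : V} (hv : v ∈ s) :
    P s A = PF (s.erase v) A (nb A v s) := by
  apply poly_ext
  intro q
  have h1 := P_eval s A (q + 1)
  have h2 := PF_eval (s.erase v) A (nb A v s) (q + 1)
  push_cast at h1 h2
  rw [h1, h2, N_eq_N2 s A _ hv]

lemma PF_empty (s : Finset V) (A : SimpleGraph V) : PF s A ∅ = X * P s A := by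
  apply poly_ext
  intro q
  have h1 := PF_eval s A ∅ (q + 1)
  have h2 := P_eval s A (q + 1)
  push_cast at h1 h2
  rw [Polynomial.eval_mul, Polynomial.eval_X, h1, h2, N2_empty]
  push_cast
  ring

lemma PF_insert {s : Finset V} (A : SimpleGraph V) {T : Finset V} {x : V} (hx : x ∈ s)
    (hxT : x ∉ T) : PF s A (insert x T) = PF s A T - P s (addE A x T) := by
  apply poly_ext
  intro q
  have h1 := PF_eval s A (insert x T) (q + 1)
  have h2 := PF_eval s A T (q + 1)
  have h3 := P_eval s (addE A x T) (q + 1)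
  push_cast at h1 h2 h3
  rw [Polynomial.eval_sub, h1, h2, h3, N2_insert s A T _ hx hxT]
  push_cast
  ring

lemma PF_self (s : Finset V) (A : SimpleGraph V) (z : ℂ) :
    (PF s A s).eval z = z * (P s A).eval (z - 1) := by
  have h : PF s A s = X * (P s A).comp (X - 1) := by
    apply poly_ext
    intro q
    have h1 := PF_eval s A s (q + 1)
    have h2 := P_eval s A q
    push_cast at h1 h2
    rw [h1, N2_self]
    simp only [Polynomial.eval_mul, Polynomial.eval_X, Polynomial.eval_comp, Polynomial.eval_sub,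
      Polynomial.eval_one, add_sub_cancel_right]
    rw [h2]
    push_cast
    ring
  rw [h]
  simp

lemma P_conj (s : Finset V) (A : SimpleGraph V) (z : ℂ) :
    (P s A).eval ((starRingEnd ℂ) z) = (starRingEnd ℂ) ((P s A).eval z) := by
  have h : (P s A).map (starRingEnd ℂ) = P s A := by
    apply poly_ext
    intro q
    have h2 := P_eval s A (q + 1)
    push_cast at h2
    have h3 : ((q : ℂ) + 1) = (starRingEnd ℂ) ((q : ℂ) + 1) := by simp
    conv_lhs => rw [h3]
    rw [Polynomial.eval_map, Polynomial.eval₂_at_apply, h2]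
    simp
  conv_lhs => rw [← h]
  rw [Polynomial.eval_map, Polynomial.eval₂_at_apply]

lemma eq_P_univ {G : SimpleGraph V} {p : ℂ[X]}
    (hp : ∀ q : ℕ, 0 < q → p.eval (q : ℂ) = Nat.card (G.Coloring (Fin q))) :
    p = P univ G := by
  apply poly_ext
  intro q
  have h1 := hp (q + 1) (Nat.succ_pos q)
  have h2 := P_eval univ G (q + 1)
  push_cast at h1 h2
  rw [h1, h2, N_univ]

end MP_1e1ce6_co.H91
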