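import Pool.Agent.Work.MP_1e1ce6_co.H91Basic

/-!
# MP_1e1ce6_co : the induction on the number of vertices
-/

namespace MP_1e1ce6_co.H91

open Finset Polynomial ComplexConjugate

set_option linter.unusedSectionVars false

/-- closed first quadrant -/
def Qd (z : ℂ) : Prop := 0 ≤ z.re ∧ 0 ≤ z.im

/-- closed disc with diameter `[0,1]` -/
def D1 (p : ℂ) : Prop := Complex.normSq p ≤ p.re

lemma Qd_zero : Qd 0 := ⟨le_rfl, le_rfl⟩

lemma Qd.add {a b : ℂ} (ha : Qd a) (hb : Qd b) : Qd (a + b) :=
  ⟨by rw [Complex.add_re]; exact add_nonneg ha.1 hb.1,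
   by rw [Complex.add_im]; exact add_nonneg ha.2 hb.2⟩

lemma Qd.mul_im {a b : ℂ} (ha : Qd a) (hb : Qd b) : 0 ≤ (a * b).im := by
  rw [Complex.mul_im]
  exact add_nonneg (mul_nonneg ha.1 hb.2) (mul_nonneg ha.2 hb.1)

lemma re_mul_conj_nonneg {φ p f : ℂ} (hφ : φ ≠ 0) (hp : Qd (φ * conj p))
    (hf : Qd (φ * conj f)) : 0 ≤ (p * conj f).re := by
  obtain ⟨h1, h2⟩ := hp
  obtain ⟨h3, h4⟩ := hf
  have hpos : 0 < Complex.normSq φ := Complex.normSq_pos.mpr hφ
  have key : Complex.normSq φ * (p * conj f).re =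
      (φ * conj p).re * (φ * conj f).re + (φ * conj p).im * (φ * conj f).im := by
    simp only [Complex.normSq_apply, Complex.mul_re, Complex.mul_im, Complex.conj_re,
      Complex.conj_im]
    ring
  have h5 : 0 ≤ Complex.normSq φ * (p * conj f).re := by
    rw [key]
    exact add_nonneg (mul_nonneg h1 h3) (mul_nonneg h2 h4)
  exact nonneg_of_mul_nonneg_right h5 hpos

lemma D1.re_nonneg {p : ℂ} (h : D1 p) : 0 ≤ p.re := le_trans (Complex.normSq_nonneg p) h

lemma D1.re_le_one {p : ℂ} (h : D1 p) : p.re ≤ 1 := by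
  have h0 := h.re_nonneg
  unfold D1 at h
  rw [Complex.normSq_apply] at h
  nlinarith [mul_self_nonneg p.im]

lemma D1.im_eq_zero {p : ℂ} (h : D1 p) (h1 : p.re = 1) : p.im = 0 := by
  unfold D1 at h
  rw [Complex.normSq_apply, h1] at h
  have : p.im * p.im ≤ 0 := by linarith
  exact mul_self_eq_zero.mp (le_antisymm this (mul_self_nonneg _))

lemma D1.mul_one_sub_re_le {p r : ℂ} (hp : D1 p) (hr : D1 r) : (p * (1 - r)).re ≤ 1 := by
  have h1 := hp.re_le_one
  have h2 := hr.re_nonneg
  unfold D1 at hp hr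
  rw [Complex.normSq_apply] at hp hr
  simp only [Complex.mul_re, Complex.sub_re, Complex.one_re, Complex.sub_im, Complex.one_im]
  nlinarith [sq_nonneg (p.re - (1 - r.re)), sq_nonneg (p.im + (0 - r.im))]

variable {V : Type*} [Fintype V] [DecidableEq V]

/-- `P(H + u(T)) / P(H)` -/
noncomputable def F (s : Finset V) (A : SimpleGraph V) (T : Finset V) (z : ℂ) : ℂ :=
  (PF s A T).eval z / (P s A).eval z

/-- `P(H + v(S)) / P(H)` -/
noncomputable def pr (s : Finset V) (A : SimpleGraph V) (v : V) (S : Finset V) (z : ℂ) : ℂ :=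
  (P s (addE A v S)).eval z / (P s A).eval z

lemma F_empty {s : Finset V} {A : SimpleGraph V} {z : ℂ} (hP : (P s A).eval z ≠ 0) :
    F s A ∅ z = z := by
  unfold F
  rw [PF_empty, Polynomial.eval_mul, Polynomial.eval_X, mul_div_assoc, div_self hP, mul_one]

lemma F_insert {s : Finset V} (A : SimpleGraph V) {T : Finset V} {x : V} (z : ℂ) (hx : x ∈ s)
    (hxT : x ∉ T) : F s A (insert x T) z = F s A T z - pr s A x T z := by
  unfold F pr
  rw [PF_insert A hx hxT, Polynomial.eval_sub, sub_div]

lemma diff_induct {s : Finset V} {A : SimpleGraph V} {z : ℂ} (C : ℕ → ℂ → Prop) (h0 : C 0 0)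
    (hs : ∀ m d, C m d → ∀ x ∈ s, ∀ S ⊆ s, x ∉ S → C (m + 1) (d + pr s A x S z))
    {T : Finset V} (hT : T ⊆ s) :
    ∀ W : Finset V, W ⊆ s → Disjoint T W → C W.card (F s A T z - F s A (T ∪ W) z) := by
  intro W
  induction W using Finset.induction_on with
  | empty =>
    intro _ _
    simpa using h0
  | insert w W hw ih =>
    intro hW hdis
    rw [Finset.disjoint_insert_right] at hdis
    rw [Finset.insert_subset_iff] at hW
    have hwTW : w ∉ T ∪ W := by
      rw [Finset.mem_union]; tauto
    have h1 := hs _ _ (ih hW.2 hdis.2) w hW.1 (T ∪ W) (Finset.union_subset hT hW.2) hwTW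
    rw [Finset.card_insert_of_notMem hw, Finset.union_insert, F_insert A z hW.1 hwTW]
    convert h1 using 1
    ring

lemma re_F_ge {s : Finset V} {A : SimpleGraph V} {z : ℂ} (hP : (P s A).eval z ≠ 0)
    (hD : ∀ v ∈ s, ∀ S ⊆ s, v ∉ S → D1 (pr s A v S z)) {T : Finset V} (hT : T ⊆ s) :
    z.re - T.card ≤ (F s A T z).re := by
  have h := diff_induct (s := s) (A := A) (z := z) (fun m d => d.re ≤ m) (by simp)
    (by
      intro m d hd x hx S hS hxS
      rw [Complex.add_re]
      push_cast
      have := (hD x hx S hS hxS).re_le_one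
      linarith) (T := ∅) (by simp) T hT (by simp)
  simp only [Finset.empty_union] at h
  rw [F_empty hP, Complex.sub_re] at h
  linarith

/-- the statement proved by induction on the number `k` of vertices -/
def Good (V : Type*) [Fintype V] [DecidableEq V] (k : ℕ) : Prop :=
  ∀ s : Finset V, s.card = k → ∀ (A : SimpleGraph V) (z : ℂ), (k : ℝ) ≤ z.re → 0 < z.im →
    (P s A).eval z ≠ 0 ∧
    (∀ v ∈ s, ∀ S ⊆ s, v ∉ S → D1 (pr s A v S z) ∧ Qd (F s A s z * conj (pr s A v S z))) ∧
    (∀ T ⊆ s, Qd (F s A T z) ∧ Qd (F s A s z * conj (F s A T z)))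

lemma good_zero : Good V 0 := by
  intro s hs A z hz hz'
  rw [Finset.card_eq_zero] at hs
  subst hs
  have hP : (P (∅ : Finset V) A).eval z ≠ 0 := by rw [P_empty]; simp
  refine ⟨hP, by simp, ?_⟩
  intro T hT
  rw [Finset.subset_empty] at hT
  subst hT
  rw [F_empty hP, Complex.mul_conj]
  refine ⟨⟨by simpa using hz, hz'.le⟩, ?_⟩
  constructor
  · rw [Complex.ofReal_re]; exact Complex.normSq_nonneg z
  · rw [Complex.ofReal_im]

section step

variable {k : ℕ} (hk : Good V k)
include hk

lemma F_re_pos {s : Finset V} (hs : s.card = k) (A : SimpleGraph V) {z : ℂ}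
    (hz : (k : ℝ) + 1 ≤ z.re) (hz' : 0 < z.im) {T : Finset V} (hT : T ⊆ s) :
    0 < (F s A T z).re := by
  obtain ⟨hP, hD, _⟩ := hk s hs A z (by linarith) hz'
  have h1 := re_F_ge hP (fun v hv S hS hvS => (hD v hv S hS hvS).1) hT
  have h2 : (T.card : ℝ) ≤ k := by
    rw [← hs]; exact_mod_cast Finset.card_le_card hT
  linarith

lemma F_ne_zero {s : Finset V} (hs : s.card = k) (A : SimpleGraph V) {z : ℂ}
    (hz : (k : ℝ) + 1 ≤ z.re) (hz' : 0 < z.im) {T : Finset V} (hT : T ⊆ s) :
    F s A T z ≠ 0 := by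
  intro h
  have := F_re_pos hk hs A hz hz' hT
  rw [h] at this
  simp at this

/-- the quotients `F_b / F_a` -/
lemma D1_quot {s : Finset V} (hs : s.card = k) (A : SimpleGraph V) {z : ℂ}
    (hz : (k : ℝ) + 1 ≤ z.re) (hz' : 0 < z.im) {a b : Finset V} (hab : a ⊆ b) (hb : b ⊆ s) :
    D1 (F s A b z / F s A a z) := by
  obtain ⟨hP, hD, hF⟩ := hk s hs A z (by linarith) hz'
  have hφ : F s A s z ≠ 0 := F_ne_zero hk hs A hz hz' (Finset.Subset.refl s)
  have ha0 : F s A a z ≠ 0 := F_ne_zero hk hs A hz hz' (hab.trans hb)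
  have h := diff_induct (s := s) (A := A) (z := z)
    (fun _ d => 0 ≤ (d * conj (F s A b z)).re) (by simp)
    (by
      intro m d hd x hx S hS hxS
      rw [add_mul, Complex.add_re]
      exact add_nonneg hd (re_mul_conj_nonneg hφ (hD x hx S hS hxS).2 (hF b hb).2))
    (T := a) (hab.trans hb) (b \ a) (Finset.sdiff_subset.trans hb) Finset.disjoint_sdiff
  rw [Finset.union_sdiff_of_subset hab] at h
  unfold D1
  have hpos : 0 < Complex.normSq (F s A a z) := Complex.normSq_pos.mpr ha0
  rw [map_div₀, Complex.div_re, ← add_div]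
  apply div_le_div_of_nonneg_right _ hpos.le
  rw [Complex.normSq_apply]
  rw [Complex.mul_re, Complex.sub_re, Complex.sub_im, Complex.conj_re, Complex.conj_im] at h
  linarith

end step

lemma nb_subset_erase {A : SimpleGraph V} {v : V} {s : Finset V} : nb A v s ⊆ s.erase v := by
  intro x hx
  rw [mem_nb] at hx
  exact Finset.mem_erase.mpr ⟨hx.2.ne.symm, hx.1⟩

lemma nb_addE {A : SimpleGraph V} {v : V} {s S : Finset V} (hS : S ⊆ s) (hvS : v ∉ S) :
    nb (addE A v S) v s = nb A v s ∪ S := by
  ext x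
  rw [Finset.mem_union, mem_nb, mem_nb, addE_adj]
  constructor
  · rintro ⟨h1, h2 | ⟨h2, ⟨_, h3⟩ | ⟨h3, h4⟩⟩⟩
    · exact Or.inl ⟨h1, h2⟩
    · exact Or.inr h3
    · exact absurd h3.symm h2
  · rintro (⟨h1, h2⟩ | h1)
    · exact ⟨h1, Or.inl h2⟩
    · exact ⟨hS h1, Or.inr ⟨fun h => hvS (h ▸ h1), Or.inl ⟨rfl, h1⟩⟩⟩

lemma P_addE {A : SimpleGraph V} {v : V} {s S : Finset V} (hv : v ∈ s) (hS : S ⊆ s)
    (hvS : v ∉ S) : P s (addE A v S) = PF (s.erase v) A (nb A v s ∪ S) := by
  rw [P_eq_PF (addE A v S) hv, nb_addE hS hvS]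
  apply PF_congr
  intro x hx y hy
  rw [addE_adj]
  have h1 := Finset.ne_of_mem_erase hx
  have h2 := Finset.ne_of_mem_erase hy
  tauto

section step2

variable {k : ℕ} (hk : Good V k)
include hk

lemma PF_eval_eq {s : Finset V} (hs : s.card = k) (A : SimpleGraph V) {z : ℂ}
    (hz : (k : ℝ) ≤ z.re) (hz' : 0 < z.im) (T : Finset V) :
    (PF s A T).eval z = (P s A).eval z * F s A T z := by
  obtain ⟨hP, _, _⟩ := hk s hs A z hz hz'
  unfold F
  rw [mul_div_cancel₀ _ hP]

lemma P_ne_zero_succ {s : Finset V} (hs : s.card = k + 1) (A : SimpleGraph V) {z : ℂ}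
    (hz : (k : ℝ) + 1 ≤ z.re) (hz' : 0 < z.im) : (P s A).eval z ≠ 0 := by
  obtain ⟨v, hv⟩ : s.Nonempty := by
    rw [← Finset.card_pos]; omega
  have hcard : (s.erase v).card = k := by
    rw [Finset.card_erase_of_mem hv]; omega
  rw [P_eq_PF A hv, PF_eval_eq hk hcard A (by linarith) hz']
  exact mul_ne_zero (hk _ hcard A z (by linarith) hz').1
    (F_ne_zero hk hcard A hz hz' nb_subset_erase)

lemma pr_eq {s : Finset V} (hs : s.card = k + 1) (A : SimpleGraph V) {z : ℂ}
    (hz : (k : ℝ) + 1 ≤ z.re) (hz' : 0 < z.im) {v : V} (hv : v ∈ s) {S : Finset V}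
    (hS : S ⊆ s) (hvS : v ∉ S) :
    pr s A v S z = F (s.erase v) A (nb A v s ∪ S) z / F (s.erase v) A (nb A v s) z := by
  have hcard : (s.erase v).card = k := by
    rw [Finset.card_erase_of_mem hv]; omega
  unfold pr
  rw [P_addE hv hS hvS, P_eq_PF A hv, PF_eval_eq hk hcard A (by linarith) hz',
    PF_eval_eq hk hcard A (by linarith) hz']
  rw [mul_div_mul_left _ _ (hk _ hcard A z (by linarith) hz').1]

lemma union_nb_subset {s : Finset V} {A : SimpleGraph V} {v : V} {S : Finset V} (hS : S ⊆ s)
    (hvS : v ∉ S) : nb A v s ∪ S ⊆ s.erase v := by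
  apply Finset.union_subset nb_subset_erase
  intro x hx
  exact Finset.mem_erase.mpr ⟨fun h => hvS (h ▸ hx), hS hx⟩

lemma D1_succ {s : Finset V} (hs : s.card = k + 1) (A : SimpleGraph V) {z : ℂ}
    (hz : (k : ℝ) + 1 ≤ z.re) (hz' : 0 < z.im) {v : V} (hv : v ∈ s) {S : Finset V}
    (hS : S ⊆ s) (hvS : v ∉ S) : D1 (pr s A v S z) := by
  have hcard : (s.erase v).card = k := by
    rw [Finset.card_erase_of_mem hv]; omega
  rw [pr_eq hk hs A hz hz' hv hS hvS]
  exact D1_quot hk hcard A hz hz' Finset.subset_union_left (union_nb_subset hk hS hvS)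

/-- `Φ(H) = Φ(K) F_a^K(z-1) / F_a^K(z)` -/
lemma Phi_eq {s : Finset V} (hs : s.card = k + 1) (A : SimpleGraph V) {z : ℂ}
    (hz : (k : ℝ) + 1 ≤ z.re) (hz' : 0 < z.im) {v : V} (hv : v ∈ s) :
    F s A s z = F (s.erase v) A (s.erase v) z * F (s.erase v) A (nb A v s) (z - 1) /
      F (s.erase v) A (nb A v s) z := by
  have hcard : (s.erase v).card = k := by
    rw [Finset.card_erase_of_mem hv]; omega
  have hz1 : (k : ℝ) ≤ (z - 1).re := by
    rw [Complex.sub_re, Complex.one_re]; linarith
  have hz1' : 0 < (z - 1).im := by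
    rw [Complex.sub_im, Complex.one_im]; linarith
  have hPz := (hk _ hcard A z (by linarith) hz').1
  have hF := F_ne_zero hk hcard A hz hz' (nb_subset_erase (A := A) (v := v) (s := s))
  have hP := P_ne_zero_succ hk hs A hz hz'
  have h1 : (P s A).eval z = (P (s.erase v) A).eval z * F (s.erase v) A (nb A v s) z := by
    rw [P_eq_PF A hv, PF_eval_eq hk hcard A (by linarith) hz']
  have h2 : (P s A).eval (z - 1) =
      (P (s.erase v) A).eval (z - 1) * F (s.erase v) A (nb A v s) (z - 1) := by
    rw [P_eq_PF A hv, PF_eval_eq hk hcard A hz1 hz1']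
  have h3 : F s A s z = z * (P s A).eval (z - 1) / (P s A).eval z := by
    unfold F; rw [PF_self]
  have h4 : F (s.erase v) A (s.erase v) z =
      z * (P (s.erase v) A).eval (z - 1) / (P (s.erase v) A).eval z := by
    conv_lhs => unfold F
    rw [PF_self]
  rw [h3, h4, h2, h1]
  field_simp

omit hk in
/-- the factor `Φ(H) conj p` for `p = F_b / F_a` and for `1 - p` -/
lemma Phi_mul_conj {φ γ β β' : ℂ} (hβ : β ≠ 0) :
    (φ * γ / β) * conj (β' / β) = ((Complex.normSq β)⁻¹ : ℝ) * (φ * conj β' * γ) := by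
  rw [map_div₀]
  have h1 : conj β ≠ 0 := (_root_.map_ne_zero _).mpr hβ
  have h2 : (Complex.normSq β : ℂ) = β * conj β := (Complex.mul_conj β).symm
  push_cast
  rw [h2]
  field_simp

lemma Phi_pr_im {s : Finset V} (hs : s.card = k + 1) (A : SimpleGraph V) {z : ℂ}
    (hz : (k : ℝ) + 1 ≤ z.re) (hz' : 0 < z.im) {v : V} (hv : v ∈ s) {S : Finset V}
    (hS : S ⊆ s) (hvS : v ∉ S) : 0 ≤ (F s A s z * conj (pr s A v S z)).im := by
  have hcard : (s.erase v).card = k := by
    rw [Finset.card_erase_of_mem hv]; omega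
  have hz1 : (k : ℝ) ≤ (z - 1).re := by
    rw [Complex.sub_re, Complex.one_re]; linarith
  have hz1' : 0 < (z - 1).im := by
    rw [Complex.sub_im, Complex.one_im]; linarith
  have hF := F_ne_zero hk hcard A hz hz' (nb_subset_erase (A := A) (v := v) (s := s))
  rw [pr_eq hk hs A hz hz' hv hS hvS, Phi_eq hk hs A hz hz' hv, Phi_mul_conj hF,
    Complex.im_ofReal_mul]
  apply mul_nonneg (inv_nonneg.mpr (Complex.normSq_nonneg _))
  exact Qd.mul_im ((hk _ hcard A z (by linarith) hz').2.2 _ (union_nb_subset hk hS hvS)).2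
    ((hk _ hcard A (z - 1) hz1 hz1').2.2 _ nb_subset_erase).1

lemma Phi_one_sub_pr_im {s : Finset V} (hs : s.card = k + 1) (A : SimpleGraph V) {z : ℂ}
    (hz : (k : ℝ) + 1 ≤ z.re) (hz' : 0 < z.im) {v : V} (hv : v ∈ s) {S : Finset V}
    (hS : S ⊆ s) (hvS : v ∉ S) : 0 ≤ (F s A s z * conj (1 - pr s A v S z)).im := by
  have hcard : (s.erase v).card = k := by
    rw [Finset.card_erase_of_mem hv]; omega
  have hz1 : (k : ℝ) ≤ (z - 1).re := by
    rw [Complex.sub_re, Complex.one_re]; linarith
  have hz1' : 0 < (z - 1).im := by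
    rw [Complex.sub_im, Complex.one_im]; linarith
  have hF := F_ne_zero hk hcard A hz hz' (nb_subset_erase (A := A) (v := v) (s := s))
  obtain ⟨hP, hD, _⟩ := hk _ hcard A z (by linarith) hz'
  have h1 : 1 - pr s A v S z = (F (s.erase v) A (nb A v s) z -
      F (s.erase v) A (nb A v s ∪ S) z) / F (s.erase v) A (nb A v s) z := by
    rw [pr_eq hk hs A hz hz' hv hS hvS, sub_div, div_self hF]
  rw [h1, Phi_eq hk hs A hz hz' hv, Phi_mul_conj hF, Complex.im_ofReal_mul]
  apply mul_nonneg (inv_nonneg.mpr (Complex.normSq_nonneg _))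
  have hsub := union_nb_subset hk (A := A) hS hvS
  have h2 := diff_induct (s := s.erase v) (A := A) (z := z)
    (fun _ d => Qd (F (s.erase v) A (s.erase v) z * conj d)) (by simpa using Qd_zero)
    (by
      intro m d hd x hx S hS hxS
      rw [map_add, mul_add]
      exact hd.add (hD x hx S hS hxS).2)
    (T := nb A v s) nb_subset_erase ((nb A v s ∪ S) \ nb A v s)
    (Finset.sdiff_subset.trans hsub) Finset.disjoint_sdiff
  rw [Finset.union_sdiff_of_subset Finset.subset_union_left] at h2
  exact Qd.mul_im h2 ((hk _ hcard A (z - 1) hz1 hz1').2.2 _ nb_subset_erase).1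

/-- one step in the comparison of `Φ(H)/p` with a sum of numbers of modulus at most one -/
lemma chain_step {s : Finset V} (hs : s.card = k + 1) (A : SimpleGraph V) {z : ℂ}
    (hz : (k : ℝ) + 1 ≤ z.re) (hz' : 0 < z.im) {x : V} (hx : x ∈ s) {S : Finset V}
    (hS : S ⊆ s) (hxS : x ∉ S) {t : V} {T : Finset V} (hT : T ⊆ nb A x s ∪ S)
    (ht : t ∈ nb A x s ∪ S) (htT : t ∉ T) :
    (z * (PF (s.erase x) A (insert t T)).eval (z - 1) / (P s (addE A x S)).eval z -
      F s (addE A x S) (insert x (insert t T)) z).re - 1 ≤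
    (z * (PF (s.erase x) A T).eval (z - 1) / (P s (addE A x S)).eval z -
      F s (addE A x S) (insert x T) z).re := by
  have hcard : (s.erase x).card = k := by
    rw [Finset.card_erase_of_mem hx]; omega
  have hsub := union_nb_subset hk (A := A) hS hxS
  have hts : t ∈ s.erase x := hsub ht
  have htx : t ≠ x := Finset.ne_of_mem_erase hts
  have hC0 := P_ne_zero_succ hk hs (addE A x S) hz hz'
  have hPt := (hk _ hcard (addE A t T) z (by linarith) hz').1
  have hFc := F_ne_zero hk hcard (addE A t T) hz hz' hsub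
  -- the probability `p_t`
  have h1 : (P s (addE (addE A x S) t (insert x T))).eval z =
      (P (s.erase x) (addE A t T)).eval z * F (s.erase x) (addE A t T) (nb A x s ∪ S) z := by
    rw [P_eq_PF _ hx, ← PF_eval_eq hk hcard _ (by linarith) hz']
    congr 1
    have h2 : nb (addE (addE A x S) t (insert x T)) x s = nb A x s ∪ S := by
      ext y
      rw [← nb_addE hS hxS, mem_nb, mem_nb, addE_adj (A := addE A x S)]
      constructor
      · rintro ⟨h1, h2 | ⟨_, ⟨h3, _⟩ | ⟨h3, _⟩⟩⟩
        · exact ⟨h1, h2⟩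
        · exact absurd h3.symm htx
        · subst h3
          rw [← mem_nb, nb_addE hS hxS]
          exact ht
      · rintro ⟨h1, h2⟩
        exact ⟨h1, Or.inl h2⟩
    rw [h2]
    apply PF_congr
    intro u hu w hw
    have h3 := Finset.ne_of_mem_erase hu
    have h4 := Finset.ne_of_mem_erase hw
    rw [addE_adj, addE_adj, addE_adj, Finset.mem_insert, Finset.mem_insert]
    tauto
  have h5 : z * (PF (s.erase x) A T).eval (z - 1) =
      z * (PF (s.erase x) A (insert t T)).eval (z - 1) +
      (P (s.erase x) (addE A t T)).eval z * F (s.erase x) (addE A t T) (s.erase x) z := by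
    rw [← PF_eval_eq hk hcard _ (by linarith) hz', PF_self, PF_insert A hts htT,
      Polynomial.eval_sub]
    ring
  have hxT : x ∉ T := fun h => (Finset.notMem_erase x s) (hsub (hT h))
  have h6 : F s (addE A x S) (insert x (insert t T)) z =
      F s (addE A x S) (insert x T) z - pr s (addE A x S) t (insert x T) z := by
    rw [Finset.insert_comm]
    apply F_insert _ _ (Finset.mem_of_mem_erase hts)
    rw [Finset.mem_insert]
    tauto
  have hD : D1 (pr s (addE A x S) t (insert x T) z) := by
    apply D1_succ hk hs _ hz hz' (Finset.mem_of_mem_erase hts)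
    · exact Finset.insert_subset hx ((hT.trans hsub).trans (Finset.erase_subset _ _))
    · rw [Finset.mem_insert]
      tauto
  have hr : D1 (F (s.erase x) (addE A t T) (s.erase x) z /
      F (s.erase x) (addE A t T) (nb A x s ∪ S) z) :=
    D1_quot hk hcard _ hz hz' hsub (Finset.Subset.refl _)
  have h7 : (P (s.erase x) (addE A t T)).eval z * F (s.erase x) (addE A t T) (s.erase x) z /
      (P s (addE A x S)).eval z = pr s (addE A x S) t (insert x T) z *
      (F (s.erase x) (addE A t T) (s.erase x) z /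
      F (s.erase x) (addE A t T) (nb A x s ∪ S) z) := by
    unfold pr
    rw [h1]
    field_simp
  have h8 := hD.mul_one_sub_re_le hr
  rw [h5, add_div, h7, h6]
  simp only [Complex.sub_re, Complex.add_re] at h8 ⊢
  rw [mul_sub, mul_one, Complex.sub_re] at h8
  linarith

lemma Phi_pr_re {s : Finset V} (hs : s.card = k + 1) (A : SimpleGraph V) {z : ℂ}
    (hz : (k : ℝ) + 1 ≤ z.re) (hz' : 0 < z.im) {x : V} (hx : x ∈ s) {S : Finset V}
    (hS : S ⊆ s) (hxS : x ∉ S) : 0 ≤ (F s A s z * conj (pr s A x S z)).re := by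
  have hcard : (s.erase x).card = k := by
    rw [Finset.card_erase_of_mem hx]; omega
  have hsub := union_nb_subset hk (A := A) hS hxS
  have hC0 := P_ne_zero_succ hk hs (addE A x S) hz hz'
  have hP0 := P_ne_zero_succ hk hs A hz hz'
  have hDc : ∀ v ∈ s, ∀ S' ⊆ s, v ∉ S' → D1 (pr s (addE A x S) v S' z) :=
    fun v hv S' hS' hvS' => D1_succ hk hs _ hz hz' hv hS' hvS'
  set D : Finset V → ℂ := fun T =>
    z * (PF (s.erase x) A T).eval (z - 1) / (P s (addE A x S)).eval z -
      F s (addE A x S) (insert x T) z with hDdef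
  set c := nb A x s ∪ S with hc
  have hxc : x ∉ c := fun h => (Finset.notMem_erase x s) (hsub h)
  -- descend from `c` to `nb A x s`
  have h1 : ∀ U : Finset V, U ⊆ c → (D c).re - U.card ≤ (D (c \ U)).re := by
    intro U
    induction U using Finset.induction_on with
    | empty => intro _; simp
    | insert u U hu ih =>
      intro hU
      rw [Finset.insert_subset_iff] at hU
      have h2 := ih hU.2
      have h3 := chain_step hk hs A hz hz' hx hS hxS (t := u) (T := c \ insert u U)
        Finset.sdiff_subset hU.1 (by simp)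
      have h4 : insert u (c \ insert u U) = c \ U := by
        ext y
        simp only [Finset.mem_insert, Finset.mem_sdiff]
        constructor
        · rintro (rfl | ⟨h5, h6⟩)
          · exact ⟨hU.1, hu⟩
          · tauto
        · rintro ⟨h5, h6⟩
          by_cases hy : y = u
          · exact Or.inl hy
          · tauto
      rw [h4] at h3
      rw [Finset.card_insert_of_notMem hu]
      push_cast
      have h5 : (D (c \ U)).re - 1 ≤ (D (c \ insert u U)).re := h3
      linarith
  have h2 := h1 (c \ nb A x s) Finset.sdiff_subset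
  rw [Finset.sdiff_sdiff_eq_self Finset.subset_union_left] at h2
  -- the value at `c`
  have h3 : D c = F s (addE A x S) s z - F s (addE A x S) (insert x c) z := by
    rw [hDdef]
    simp only
    congr 1
    rw [hc, ← P_addE hx hS hxS]
    unfold F
    rw [PF_self]
  have hins : insert x c ⊆ s := Finset.insert_subset hx (hsub.trans (Finset.erase_subset _ _))
  have h4 := diff_induct (s := s) (A := addE A x S) (z := z) (fun m d => d.re ≤ m) (by simp)
    (by
      intro m d hd y hy S' hS' hyS'
      rw [Complex.add_re]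
      push_cast
      have := (hDc y hy S' hS' hyS').re_le_one
      linarith) (T := insert x c) hins (s \ insert x c) Finset.sdiff_subset
      Finset.disjoint_sdiff
  rw [Finset.union_sdiff_of_subset hins, Complex.sub_re] at h4
  have hains : insert x (nb A x s) ⊆ s :=
    Finset.insert_subset hx (nb_subset_erase.trans (Finset.erase_subset _ _))
  have h5 := re_F_ge hC0 hDc hains
  have hxa : x ∉ nb A x s := fun h => hxc (Finset.mem_union_left _ h)
  rw [Finset.card_insert_of_notMem hxa] at h5
  have h6 : (s \ insert x c).card + (c.card + 1) = k + 1 := by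
    rw [← hs, ← Finset.card_insert_of_notMem hxc]
    exact Finset.card_sdiff_add_card_eq_card hins
  have h7 : (c \ nb A x s).card + (nb A x s).card = c.card :=
    Finset.card_sdiff_add_card_eq_card Finset.subset_union_left
  have h6' : ((s \ insert x c).card : ℝ) + (c.card + 1) = k + 1 := by exact_mod_cast h6
  have h7' : ((c \ nb A x s).card : ℝ) + (nb A x s).card = c.card := by exact_mod_cast h7
  have h8 : 0 ≤ ((PF s A s).eval z / (P s (addE A x S)).eval z).re := by
    have h9 : (PF s A s).eval z / (P s (addE A x S)).eval z =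
        D (nb A x s) + F s (addE A x S) (insert x (nb A x s)) z := by
      rw [hDdef]
      simp only
      rw [PF_self, P_eq_PF A hx]
      ring
    rw [h9, Complex.add_re]
    rw [h3, Complex.sub_re] at h2
    push_cast at h5
    linarith
  have h9 : F s A s z * conj (pr s A x S z) =
      ((Complex.normSq (pr s A x S z) : ℝ) : ℂ) *
        ((PF s A s).eval z / (P s (addE A x S)).eval z) := by
    have hpr : pr s A x S z ≠ 0 := div_ne_zero hC0 hP0
    have h10 : F s A s z = pr s A x S z * ((PF s A s).eval z / (P s (addE A x S)).eval z) := by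
      unfold F pr
      field_simp
    rw [h10, ← Complex.mul_conj]
    ring
  rw [h9, Complex.re_ofReal_mul]
  exact mul_nonneg (Complex.normSq_nonneg _) h8

theorem good_succ : Good V (k + 1) := by
  intro s hs A z hz hz'
  have hz : (k : ℝ) + 1 ≤ z.re := by exact_mod_cast hz
  have hP := P_ne_zero_succ hk hs A hz hz'
  have hD : ∀ v ∈ s, ∀ S ⊆ s, v ∉ S → D1 (pr s A v S z) :=
    fun v hv S hS hvS => D1_succ hk hs A hz hz' hv hS hvS
  have hQ : ∀ v ∈ s, ∀ S ⊆ s, v ∉ S → Qd (F s A s z * conj (pr s A v S z)) :=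
    fun v hv S hS hvS => ⟨Phi_pr_re hk hs A hz hz' hv hS hvS, Phi_pr_im hk hs A hz hz' hv hS hvS⟩
  refine ⟨hP, fun v hv S hS hvS => ⟨hD v hv S hS hvS, hQ v hv S hS hvS⟩, ?_⟩
  have hcardR : (s.card : ℝ) = k + 1 := by rw [hs]; push_cast; ring
  have hk0 : (0 : ℝ) ≤ k := Nat.cast_nonneg k
  -- `Φ`
  have hΦre : z.re - (k + 1) ≤ (F s A s z).re := by
    have := re_F_ge hP hD (Finset.Subset.refl s)
    rwa [hcardR] at this
  have hΦim : 0 ≤ (F s A s z).im := by
    have h := diff_induct (s := s) (A := A) (z := z)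
      (fun _ d => 0 ≤ (F s A s z * conj d).im) (by simp)
      (by
        intro m d hd x hx S hS hxS
        rw [map_add, mul_add, Complex.add_im]
        exact add_nonneg hd (hQ x hx S hS hxS).2) (T := ∅) (by simp) s
        (Finset.Subset.refl s) (by simp)
    rw [Finset.empty_union, F_empty hP] at h
    simp only [Complex.mul_im, Complex.conj_re, Complex.conj_im, Complex.sub_re,
      Complex.sub_im] at h
    have h1 : (F s A s z).re * z.im ≤ (F s A s z).im * z.re := by nlinarith
    have h2 : 0 ≤ (F s A s z).re * z.im := mul_nonneg (by linarith) hz'.le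
    have h3 : 0 ≤ (F s A s z).im * z.re := h2.trans h1
    exact nonneg_of_mul_nonneg_left h3 (by linarith)
  intro T hT
  have hunion : T ∪ (s \ T) = s := Finset.union_sdiff_of_subset hT
  have hcardT : (s \ T).card + T.card = k + 1 := by
    rw [← hs]
    exact Finset.card_sdiff_add_card_eq_card hT
  have hcardT' : ((s \ T).card : ℝ) + T.card = k + 1 := by exact_mod_cast hcardT
  refine ⟨⟨?_, ?_⟩, ?_⟩
  · have h := re_F_ge hP hD hT
    have : (0 : ℝ) ≤ (s \ T).card := Nat.cast_nonneg _
    linarith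
  · -- the imaginary part
    have h := diff_induct (s := s) (A := A) (z := z)
      (fun m d => 0 ≤ ((m : ℂ) - d).re ∧ (((m : ℂ) - d).re = 0 → ((m : ℂ) - d).im = 0) ∧
        0 ≤ (F s A s z * conj ((m : ℂ) - d)).im) (by simp)
      (by
        rintro m d ⟨hd1, hd2, hd3⟩ x hx S hS hxS
        have hp := hD x hx S hS hxS
        have h1 := hp.re_le_one
        have h2 : ((m + 1 : ℕ) : ℂ) - (d + pr s A x S z) =
            ((m : ℂ) - d) + (1 - pr s A x S z) := by push_cast; ring
        have h3 : 0 ≤ (1 - pr s A x S z).re := by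
          rw [Complex.sub_re, Complex.one_re]; linarith
        rw [h2]
        refine ⟨?_, ?_, ?_⟩
        · rw [Complex.add_re]; linarith
        · intro h4
          rw [Complex.add_re] at h4
          have h5 : ((m : ℂ) - d).re = 0 := by linarith
          have h6 : (1 - pr s A x S z).re = 0 := by linarith
          rw [Complex.sub_re, Complex.one_re] at h6
          rw [Complex.add_im, hd2 h5, Complex.sub_im, Complex.one_im,
            hp.im_eq_zero (by linarith)]
          ring
        · rw [map_add, mul_add, Complex.add_im]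
          exact add_nonneg hd3 (Phi_one_sub_pr_im hk hs A hz hz' hx hS hxS))
      (T := T) hT (s \ T) Finset.sdiff_subset Finset.disjoint_sdiff
    rw [hunion] at h
    obtain ⟨h1, h2, h3⟩ := h
    have hre := re_F_ge hP hD hT
    simp only [Complex.sub_re, Complex.sub_im, Complex.natCast_re, Complex.natCast_im,
      Complex.mul_im, Complex.conj_re, Complex.conj_im] at h1 h2 h3
    set a := (F s A s z).re with ha
    set b := (F s A s z).im with hb
    set c := (F s A T z).re with hc
    set d := (F s A T z).im with hd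
    set m : ℝ := ((s \ T).card : ℝ) with hm
    have ha0 : 0 ≤ a := by linarith
    have he : m - (c - a) ≤ a := by linarith
    rcases ha0.lt_or_eq with hpos | hzero
    · have h4 : a * (b - d) ≤ b * a := by nlinarith
      have h5 : a * (b - d) ≤ a * b := by linarith
      have h6 := le_of_mul_le_mul_left h5 hpos
      linarith
    · have h4 : m - (c - a) = 0 := by linarith
      have h5 := h2 h4
      linarith
  · have h := diff_induct (s := s) (A := A) (z := z)
      (fun _ d => Qd (F s A s z * conj d)) (by simpa using Qd_zero)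
      (by
        intro m d hd x hx S hS hxS
        rw [map_add, mul_add]
        exact hd.add (hQ x hx S hS hxS))
      (T := T) hT (s \ T) Finset.sdiff_subset Finset.disjoint_sdiff
    rw [hunion] at h
    have h1 : F s A s z * conj (F s A T z) = F s A s z * conj (F s A T z - F s A s z) +
        ((Complex.normSq (F s A s z) : ℝ) : ℂ) := by
      rw [← Complex.mul_conj, map_sub]
      ring
    rw [h1]
    apply h.add
    exact ⟨by rw [Complex.ofReal_re]; exact Complex.normSq_nonneg _, by rw [Complex.ofReal_im]⟩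

end step2

theorem good_all (k : ℕ) : Good V k := by
  induction k with
  | zero => exact good_zero
  | succ k ih => exact good_succ ih

/-- no zeros off the real axis -/
theorem P_ne_zero_of_im_pos {s : Finset V} (hs : 0 < s.card) (A : SimpleGraph V) {z : ℂ}
    (hz : (s.card : ℝ) - 1 ≤ z.re) (hz' : 0 < z.im) : (P s A).eval z ≠ 0 := by
  obtain ⟨v, hv⟩ : s.Nonempty := Finset.card_pos.mp hs
  obtain ⟨k, hk⟩ : ∃ k, s.card = k + 1 := ⟨s.card - 1, by omega⟩
  have hcard : (s.erase v).card = k := by
    rw [Finset.card_erase_of_mem hv]; omega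
  have hzk : (k : ℝ) ≤ z.re := by
    rw [hk] at hz
    push_cast at hz
    linarith
  have hG := good_all (V := V) k
  rw [P_eq_PF A hv, PF_eval_eq hG hcard A hzk hz']
  obtain ⟨hP, hD, hF⟩ := hG _ hcard A z hzk hz'
  refine mul_ne_zero hP ?_
  intro h0
  have hT : nb A v s ⊆ s.erase v := nb_subset_erase
  have h := diff_induct (s := s.erase v) (A := A) (z := z)
      (fun m d => 0 ≤ ((m : ℂ) - d).re ∧ (((m : ℂ) - d).re = 0 → ((m : ℂ) - d).im = 0)) (by simp)
      (by
        rintro m d ⟨hd1, hd2⟩ x hx S hS hxS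
        have hp := (hD x hx S hS hxS).1
        have h1 := hp.re_le_one
        have h2 : ((m + 1 : ℕ) : ℂ) - (d + pr (s.erase v) A x S z) =
            ((m : ℂ) - d) + (1 - pr (s.erase v) A x S z) := by push_cast; ring
        rw [h2]
        refine ⟨?_, ?_⟩
        · rw [Complex.add_re, Complex.sub_re (1 : ℂ), Complex.one_re]; linarith
        · intro h4
          rw [Complex.add_re, Complex.sub_re (1 : ℂ), Complex.one_re] at h4
          have h5 : ((m : ℂ) - d).re = 0 := by linarith
          have h6 : (pr (s.erase v) A x S z).re = 1 := by linarith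
          rw [Complex.add_im, hd2 h5, Complex.sub_im, Complex.one_im, hp.im_eq_zero h6]
          ring)
      (T := ∅) (by simp) (nb A v s) hT (by simp)
  rw [Finset.empty_union, F_empty hP, h0] at h
  obtain ⟨h1, h2⟩ := h
  simp only [sub_zero, Complex.sub_re, Complex.sub_im, Complex.natCast_re,
    Complex.natCast_im] at h1 h2
  have h3 : ((nb A v s).card : ℝ) ≤ k := by
    rw [← hcard]; exact_mod_cast Finset.card_le_card hT
  have h4 := h2 (by linarith)
  linarith

theorem P_ne_zero_of_im_ne {s : Finset V} (hs : 0 < s.card) (A : SimpleGraph V) {z : ℂ}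
    (hz : (s.card : ℝ) - 1 ≤ z.re) (hz' : z.im ≠ 0) : (P s A).eval z ≠ 0 := by
  rcases lt_or_gt_of_ne hz' with h | h
  · intro h0
    have h1 : (P s A).eval (conj z) ≠ 0 := by
      apply P_ne_zero_of_im_pos hs A
      · rw [Complex.conj_re]; exact hz
      · rw [Complex.conj_im]; linarith
    apply h1
    rw [P_conj, h0, map_zero]
  · exact P_ne_zero_of_im_pos hs A hz h

end MP_1e1ce6_co.H91
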