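import Pool.Agent.Work.MP_1e1ce6_co.Chrom
import Pool.Agent.Work.MP_1e1ce6_co.Cone

/-!
# MP_1e1ce6_co : from the chromatic polynomial to the functional `L`
-/

namespace MP_1e1ce6_co

open Finset Polynomial

variable {V : Type*}

/-- the `σ`-polynomial of `G` with real coefficients -/
noncomputable def sigmaPoly [Fintype V] (G : SimpleGraph V) : ℝ[X] :=
  ∑ k ∈ range (Fintype.card V + 1), C (sigmaCoeff G k : ℝ) * X ^ k

lemma sigmaCoeff_top [Fintype V] (G : SimpleGraph V) : sigmaCoeff G (Fintype.card V) = 1 := by
  classical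
  unfold sigmaCoeff
  rw [Nat.card_eq_one_iff_unique]
  constructor
  · constructor
    rintro ⟨s, hs1, hs2⟩ ⟨t, ht1, ht2⟩
    have key : ∀ s : Setoid V, Nat.card (Quotient s) = Fintype.card V → s = ⊥ := by
      intro s hs
      have : Fintype (Quotient s) := Fintype.ofFinite _
      have hbij : Function.Bijective (Quotient.mk s) := by
        rw [Fintype.bijective_iff_surjective_and_card]
        refine ⟨Quotient.mk_surjective, ?_⟩
        rw [← hs, Nat.card_eq_fintype_card]
      ext u v
      constructor
      · intro h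
        exact hbij.1 (Quotient.sound h)
      · intro h
        have : u = v := h
        rw [this]
    apply Subtype.ext
    exact (key s hs2).trans (key t ht2).symm
  · refine ⟨⟨⊥, ?_, ?_⟩⟩
    · intro u v huv hadj
      have : u = v := huv
      subst this
      exact G.loopless.irrefl u hadj
    · rw [← Nat.card_eq_fintype_card]
      apply Nat.card_congr
      symm
      refine Equiv.ofBijective (Quotient.mk ⊥) ⟨?_, Quotient.mk_surjective⟩
      intro u v h
      exact Quotient.exact h

lemma coeff_sigmaPoly [Fintype V] (G : SimpleGraph V) (j : ℕ) :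
    (sigmaPoly G).coeff j = if j ≤ Fintype.card V then (sigmaCoeff G j : ℝ) else 0 := by
  unfold sigmaPoly
  rw [finsetSum_coeff]
  simp only [coeff_C_mul, coeff_X_pow, mul_ite, mul_one, mul_zero]
  rw [Finset.sum_ite_eq]
  simp [Nat.lt_succ_iff]

lemma natDegree_sigmaPoly [Fintype V] (G : SimpleGraph V) :
    (sigmaPoly G).natDegree = Fintype.card V := by
  apply natDegree_eq_of_le_of_coeff_ne_zero
  · rw [natDegree_le_iff_coeff_eq_zero]
    intro j hj
    rw [coeff_sigmaPoly, if_neg (by omega)]
  · rw [coeff_sigmaPoly, if_pos le_rfl, sigmaCoeff_top]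
    norm_num

lemma monic_sigmaPoly [Fintype V] (G : SimpleGraph V) : (sigmaPoly G).Monic := by
  unfold Monic leadingCoeff
  rw [natDegree_sigmaPoly, coeff_sigmaPoly, if_pos le_rfl, sigmaCoeff_top]
  norm_num

lemma reverse_sigmaPoly [Fintype V] (G : SimpleGraph V) :
    (sigmaPoly G).reverse =
      ∑ k ∈ range (Fintype.card V + 1), monomial (Fintype.card V - k) (sigmaCoeff G k : ℝ) := by
  ext j
  rw [coeff_reverse, natDegree_sigmaPoly, finsetSum_coeff]
  simp only [coeff_monomial]
  rcases Nat.lt_or_ge (Fintype.card V) j with hj | hj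
  · rw [revAt_eq_self_of_lt hj, coeff_sigmaPoly, if_neg (by omega)]
    symm
    apply Finset.sum_eq_zero
    intro k hk
    rw [if_neg (by omega)]
  · rw [revAt_le hj, coeff_sigmaPoly, if_pos (by omega)]
    rw [Finset.sum_eq_single (Fintype.card V - j)]
    · rw [if_pos (by omega)]
    · intro k hk hne
      have := Finset.mem_range.mp hk
      rw [if_neg (by omega)]
    · intro h
      exfalso
      apply h
      rw [Finset.mem_range]
      omega

lemma L_sum {ι : Type*} (w : ℂ) (s : Finset ι) (f : ι → ℝ[X]) :
    L w (∑ i ∈ s, f i) = ∑ i ∈ s, L w (f i) := by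
  classical
  induction s using Finset.induction_on with
  | empty => simp [L]
  | insert i s hi ih => rw [Finset.sum_insert hi, L_add, ih, Finset.sum_insert hi]

lemma descPoch_eq (z : ℂ) (hz : -1 < z.re) (k : ℕ) :
    (descPochhammer ℂ k).eval z = Complex.Gamma (z + 1) * g (z + 1 - k) := by
  induction k with
  | zero =>
    simp only [descPochhammer_zero, eval_one, CharP.cast_eq_zero, sub_zero, g]
    rw [mul_inv_cancel₀]
    apply Complex.Gamma_ne_zero_of_re_pos
    simp
    linarith
  | succ k ih =>
    rw [descPochhammer_succ_right, eval_mul, ih, eval_sub, eval_X, eval_natCast]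
    have h1 : g (z + 1 - ((k + 1 : ℕ) : ℂ)) = (z - k) * g (z + 1 - k) := by
      have := g_rec (z + 1 - ((k + 1 : ℕ) : ℂ))
      rw [this]
      push_cast
      ring_nf
    rw [h1]
    ring

theorem chromPoly_eq_L [Fintype V] (G : SimpleGraph V) (z : ℂ) (hz : -1 < z.re) :
    (chromPoly G).eval z = Complex.Gamma (z + 1) *
      L (z + 1 - Fintype.card V) (sigmaPoly G).reverse := by
  rw [reverse_sigmaPoly, L_sum, chromPoly, eval_finsetSum, Finset.mul_sum]
  apply Finset.sum_congr rfl
  intro k hk
  have hk' : k ≤ Fintype.card V := by have := Finset.mem_range.mp hk; omega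
  rw [L_monomial, eval_mul, eval_natCast, descPoch_eq z hz]
  have : z + 1 - (Fintype.card V : ℂ) + ((Fintype.card V - k : ℕ) : ℂ) = z + 1 - k := by
    rw [Nat.cast_sub hk']
    ring
  rw [this]
  push_cast
  ring

/-- a graph that is not complete can be coloured with one colour less than its order -/
lemma colorable_pred [Fintype V] {G : SimpleGraph V} (hG : G ≠ ⊤) :
    G.Colorable (Fintype.card V - 1) := by
  classical
  obtain ⟨u, v, huv, hadj⟩ : ∃ u v, u ≠ v ∧ ¬ G.Adj u v := by
    by_contra hcon
    push Not at hcon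
    apply hG
    ext u v
    rw [SimpleGraph.top_adj]
    exact ⟨fun h => h.ne, fun h => hcon u v h⟩
  let f : V → {x : V // x ≠ v} := fun x => if h : x = v then ⟨u, huv⟩ else ⟨x, h⟩
  have hval : ∀ {x y : V}, G.Adj x y → f x ≠ f y := by
    intro x y hxy hf
    by_cases hx : x = v
    · by_cases hy : y = v
      · exact hxy.ne (hx.trans hy.symm)
      · simp only [f, hx, hy, dif_pos, dif_neg, not_false_iff, Subtype.mk.injEq] at hf
        rw [hx, ← hf] at hxy
        exact hadj hxy.symm
    · by_cases hy : y = v
      · simp only [f, hx, hy, dif_pos, dif_neg, not_false_iff, Subtype.mk.injEq] at hf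
        rw [hy, hf] at hxy
        exact hadj hxy
      · simp only [f, hx, hy, dif_neg, not_false_iff, Subtype.mk.injEq] at hf
        exact hxy.ne hf
  have hC : G.Coloring {x : V // x ≠ v} := SimpleGraph.Coloring.mk f (fun {x y} h => hval h)
  have hcol := hC.colorable
  have hcard : Fintype.card {x : V // x ≠ v} = Fintype.card V - 1 := by
    rw [Fintype.card_subtype_compl]
    simp
  rw [hcard] at hcol
  exact hcol

theorem no_root_of_ne [Fintype V] {G : SimpleGraph V} (hG : G ≠ ⊤)
    (hL : ∀ w : ℂ, 0 ≤ w.re → w ≠ 0 → L w (sigmaPoly G).reverse ≠ 0)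
    {p : ℂ[X]} (hp : ∀ q : ℕ, 0 < q → p.eval (q : ℂ) = Nat.card (G.Coloring (Fin q)))
    {z : ℂ} (hz : p.eval z = 0) : z.re < Fintype.card V - 1 := by
  classical
  rw [eq_chromPoly hp] at hz
  by_contra hcon
  push Not at hcon
  have hn : 0 < Fintype.card V := by
    rw [Fintype.card_pos_iff]
    by_contra hemp
    rw [not_nonempty_iff] at hemp
    apply hG
    ext u v
    exact hemp.elim u
  have hnR : (1:ℝ) ≤ Fintype.card V := by exact_mod_cast hn
  by_cases hw : z + 1 - Fintype.card V = 0
  · -- z = n - 1
    have hz' : z = ((Fintype.card V - 1 : ℕ) : ℂ) := by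
      rw [Nat.cast_sub hn]
      push_cast
      linear_combination hw
    rw [hz', chromPoly_eval] at hz
    obtain ⟨C⟩ := colorable_pred hG
    have : 0 < Nat.card (G.Coloring (Fin (Fintype.card V - 1))) :=
      Nat.card_pos_iff.mpr ⟨⟨C⟩, inferInstance⟩
    have h0 : Nat.card (G.Coloring (Fin (Fintype.card V - 1))) = 0 := by exact_mod_cast hz
    omega
  · rw [chromPoly_eq_L G z (by linarith)] at hz
    rcases mul_eq_zero.mp hz with h | h
    · apply Complex.Gamma_ne_zero_of_re_pos (s := z + 1) _ h
      simp
      linarith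
    · refine hL _ ?_ hw h
      simp
      linarith

end MP_1e1ce6_co
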